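import Mathlib

set_option autoImplicit false

/-!
# The connectivity condition, good colourings, unions of pieces
-/

namespace Pool.Agent.Lib.MP_3240be_co.H82

/-- `H` is not empty, and it stays connected after the deletion of at most two vertices; if `p`
holds then `H` is bipartite and only pairs of vertices in different classes are deleted.  The
connectedness is stated in terms of sets closed under adjacency. -/
structure TC (p : Prop) {W : Type} (H : SimpleGraph W) : Prop where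
  ne : Nonempty W
  third : ∀ x y : W, ∃ z, z ≠ x ∧ z ≠ y
  bip : p → ∃ κ : W → Bool, ∀ x y, H.Adj x y → κ x ≠ κ y
  sep : ∀ I J : W → Prop, (∀ x y, I x → I y → x = y) → (∀ x y, J x → J y → x = y) →
    (p → ∃ κ : W → Bool, (∀ x y, H.Adj x y → κ x ≠ κ y) ∧ ∀ x y, I x → J y → κ x ≠ κ y) →
    ∀ A : W → Prop, (∃ x, ¬ I x ∧ ¬ J x ∧ A x) →
      (∀ x y, ¬ I x → ¬ J x → ¬ I y → ¬ J y → H.Adj x y → A x → A y) →
      ∀ y, ¬ I y → ¬ J y → A y

/-- One deleted vertex. -/
theorem TC.sep1 {p : Prop} {W : Type} {H : SimpleGraph W} (hH : TC p H) (I : W → Prop)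
    (hI : ∀ x y, I x → I y → x = y) (A : W → Prop) (hA : ∃ x, ¬ I x ∧ A x)
    (hcl : ∀ x y, ¬ I x → ¬ I y → H.Adj x y → A x → A y) : ∀ y, ¬ I y → A y := by
  obtain ⟨x, hx, hAx⟩ := hA
  exact fun y hy => hH.sep I (fun _ => False) hI (fun _ _ h => h.elim) (fun hp => by
    obtain ⟨κ, hκ⟩ := hH.bip hp
    exact ⟨κ, hκ, fun _ _ _ h => h.elim⟩) A ⟨x, hx, fun h => h, hAx⟩
    (fun x y hx _ hy _ h => hcl x y hx hy h) y hy (fun h => h)

theorem TC.conn {p : Prop} {W : Type} {H : SimpleGraph W} (hH : TC p H) (A : W → Prop)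
    (hA : ∃ x, A x) (hcl : ∀ x y, H.Adj x y → A x → A y) : ∀ y, A y := by
  obtain ⟨x, hx⟩ := hA
  exact fun y => hH.sep1 (fun _ => False) (fun _ _ h => h.elim) A ⟨x, fun h => h, hx⟩
    (fun x y _ _ h => hcl x y h) y (fun h => h)

/-- Deletion of the preimages of two adjacent vertices of a host. -/
theorem TC.sepf {p : Prop} {W X : Type} {H : SimpleGraph W} (hH : TC p H) (f : W → X)
    (hf : Function.Injective f) (P Q : X)
    (hcl : p → ∃ cl : X → Bool, (∀ x y, H.Adj x y → cl (f x) ≠ cl (f y)) ∧ cl P ≠ cl Q)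
    (A : W → Prop) (hA : ∃ x, f x ≠ P ∧ f x ≠ Q ∧ A x)
    (hA' : ∀ x y, f y ≠ P → f y ≠ Q → H.Adj x y → A x → A y) :
    ∀ y, f y ≠ P → f y ≠ Q → A y := by
  refine hH.sep (fun x => f x = P) (fun x => f x = Q) (fun x y hx hy => hf (hx.trans hy.symm))
    (fun x y hx hy => hf (hx.trans hy.symm)) (fun hp => ?_) A hA
    (fun x y _ _ hy1 hy2 h => hA' x y hy1 hy2 h)
  obtain ⟨cl, h1, h2⟩ := hcl hp
  refine ⟨fun x => cl (f x), h1, fun x y hx hy => ?_⟩
  show cl (f x) ≠ cl (f y)
  rw [hx, hy]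
  exact h2

/-- Every vertex has a neighbour different from a given vertex. -/
theorem TC.nbr2 {p : Prop} {W : Type} {H : SimpleGraph W} (hH : TC p H) (x z : W) :
    ∃ y, H.Adj x y ∧ y ≠ z := by
  by_contra hcon
  push Not at hcon
  obtain ⟨t, ht1, ht2⟩ := hH.third x z
  by_cases hxz : x = z
  · subst hxz
    have h1 := hH.conn (fun y => y = x) ⟨x, rfl⟩ (fun u v huv hu => by
      rw [hu] at huv
      exact hcon v huv)
    exact ht1 (h1 t)
  · have h1 := hH.sep1 (fun y => y = z) (fun u v hu hv => hu.trans hv.symm) (fun y => y = x)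
      ⟨x, hxz, rfl⟩ (fun u v _ hv huv hu => by
        rw [hu] at huv
        exact absurd (hcon v huv) hv)
    exact ht1 (h1 t ht2)

theorem TC.nbr {p : Prop} {W : Type} {H : SimpleGraph W} (hH : TC p H) (x : W) :
    ∃ y, H.Adj x y := by
  obtain ⟨y, hy, _⟩ := hH.nbr2 x x
  exact ⟨y, hy⟩

/-- The colouring `c` of the edges of `G` has no monochromatic copy of `H`. -/
def Good {n : ℕ} (H : SimpleGraph (Fin n)) {W : Type} (G : SimpleGraph W) (c : W → W → Bool) :
    Prop :=
  ∀ (b : Bool) (f : Fin n → W), Function.Injective f →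
    ¬ ∀ i j, H.Adj i j → G.Adj (f i) (f j) ∧ c (f i) (f j) = b

theorem Good.not {n : ℕ} {H : SimpleGraph (Fin n)} {W : Type} {G : SimpleGraph W}
    {c : W → W → Bool} (h : Good H G c) : Good H G (fun x y => !c x y) := by
  intro b f hf hcon
  refine h (!b) f hf (fun i j hij => ⟨(hcon i j hij).1, ?_⟩)
  rw [← (hcon i j hij).2, Bool.not_not]

/-- Restriction of a good colouring along an embedding. -/
theorem Good.comap {n : ℕ} {H : SimpleGraph (Fin n)} {W U : Type} {G : SimpleGraph W}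
    {S : SimpleGraph U} {c : W → W → Bool} (h : Good H G c) (ι : U → W)
    (hι : Function.Injective ι) (hadj : ∀ u v, S.Adj u v → G.Adj (ι u) (ι v)) :
    Good H S (fun u v => c (ι u) (ι v)) := by
  intro b f hf hcon
  exact h b (fun i => ι (f i)) (hι.comp hf) (fun i j hij => ⟨hadj _ _ (hcon i j hij).1,
    (hcon i j hij).2⟩)

/-- The union of the images of the pieces. -/
def Un {J : Type} {U : J → Type} {W : Type} (S : ∀ j, SimpleGraph (U j)) (ι : ∀ j, U j → W)
    (hι : ∀ j, Function.Injective (ι j)) : SimpleGraph W where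
  Adj x y := ∃ j u v, (S j).Adj u v ∧ ι j u = x ∧ ι j v = y
  symm := ⟨fun _ _ ⟨j, u, v, h, hu, hv⟩ => ⟨j, v, u, h.symm, hv, hu⟩⟩
  loopless := ⟨fun _ ⟨j, _, _, h, hu, hv⟩ => h.ne (hι j (hu.trans hv.symm))⟩

/-- Colourings of the pieces that agree on common edges come from a colouring of the union. -/
theorem exists_colouring {J : Type} {U : J → Type} {W : Type} (S : ∀ j, SimpleGraph (U j))
    (ι : ∀ j, U j → W) (c : ∀ j, U j → U j → Bool) (hc : ∀ j u v, c j u v = c j v u)
    (hcol : ∀ j k u v u' v', (S j).Adj u v → (S k).Adj u' v' → ι j u = ι k u' →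
      ι j v = ι k v' → c j u v = c k u' v') :
    ∃ C : W → W → Bool, (∀ x y, C x y = C y x) ∧
      ∀ j u v, (S j).Adj u v → C (ι j u) (ι j v) = c j u v := by
  classical
  let P : W → W → (Σ j, U j × U j) → Prop := fun x y t =>
    (S t.1).Adj t.2.1 t.2.2 ∧ ι t.1 t.2.1 = x ∧ ι t.1 t.2.2 = y
  let C : W → W → Bool := fun x y => if h : ∃ t, P x y t then
    c h.choose.1 h.choose.2.1 h.choose.2.2 else false
  have hC : ∀ j u v, (S j).Adj u v → C (ι j u) (ι j v) = c j u v := by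
    intro j u v huv
    have h : ∃ t, P (ι j u) (ι j v) t := ⟨⟨j, u, v⟩, huv, rfl, rfl⟩
    simp only [C, dif_pos h]
    obtain ⟨h1, h2, h3⟩ := h.choose_spec
    exact hcol _ _ _ _ _ _ h1 huv h2 h3
  refine ⟨C, fun x y => ?_, hC⟩
  by_cases h : ∃ t, P x y t
  · obtain ⟨⟨j, u, v⟩, h1, h2, h3⟩ := h
    simp only at h1 h2 h3
    subst h2 h3
    rw [hC j u v h1, hC j v u h1.symm, hc]
  · have h' : ¬ ∃ t, P y x t := by
      rintro ⟨⟨j, u, v⟩, h1, h2, h3⟩
      exact h ⟨⟨j, v, u⟩, h1.symm, h3, h2⟩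
    simp only [C, dif_neg h, dif_neg h']

/-- A monochromatic copy of `H` in the union that lies in one (induced) piece is a monochromatic
copy in the piece. -/
theorem piece_copy {n : ℕ} {H : SimpleGraph (Fin n)} {U W : Type} {S : SimpleGraph U}
    {G : SimpleGraph W} {ι : U → W} {c : U → U → Bool} {C : W → W → Bool}
    (hind : ∀ u v, G.Adj (ι u) (ι v) → S.Adj u v)
    (hC : ∀ u v, S.Adj u v → C (ι u) (ι v) = c u v) (hgood : Good H S c) (b : Bool)
    (f : Fin n → W) (hf : Function.Injective f) (hin : ∀ i, ∃ u, ι u = f i)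
    (hmono : ∀ i j, H.Adj i j → G.Adj (f i) (f j) ∧ C (f i) (f j) = b) : False := by
  choose g hg using hin
  refine hgood b g (fun i j hij => hf (by rw [← hg, ← hg, hij])) (fun i j hij => ?_)
  obtain ⟨h1, h2⟩ := hmono i j hij
  rw [← hg, ← hg] at h1 h2
  have h3 := hind _ _ h1
  exact ⟨h3, by rw [← hC _ _ h3, h2]⟩

end Pool.Agent.Lib.MP_3240be_co.H82
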