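import Mathlib
import Pool.Agent.Lib.MP_3240be_co.H36.Chrom.Hyper

set_option autoImplicit false

/-!
# Equality or inequality from a nontrivial complement-closed relation
-/

namespace Pool.Agent.Lib.MP_3240be_co.H82

open Pool.Agent.Lib.MP_3240be_co.H36.Chrom

/-- A relation that is neither empty nor full changes along some coordinate. -/
theorem exists_flip {T : Type} [Finite T] (R : (T → Bool) → Prop) (h1 : ∃ p, R p)
    (h2 : ∃ p, ¬ R p) : ∃ (c : T → Bool) (i : T), R c ∧
      ¬ R (fun t => open Classical in if t = i then !c t else c t) := by
  classical
  by_contra hcon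
  push Not at hcon
  obtain ⟨c, hc⟩ := h1
  obtain ⟨p, hp⟩ := h2
  have := Fintype.ofFinite T
  have main : ∀ D : Finset T, R (fun t => if t ∈ D then p t else c t) := by
    intro D
    induction D using Finset.induction_on with
    | empty => simpa using hc
    | insert i D hi ih =>
      by_cases hpi : p i = c i
      · have e : (fun t => if t ∈ insert i D then p t else c t) =
            fun t => if t ∈ D then p t else c t := by
          funext t
          by_cases ht : t = i
          · subst ht
            simp [hi, hpi]
          · simp [Finset.mem_insert, ht]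
        rw [e]
        exact ih
      · have h := hcon _ i ih
        have e : (fun t => if t ∈ insert i D then p t else c t) =
            fun t => if t = i then !(if t ∈ D then p t else c t) else
              if t ∈ D then p t else c t := by
          funext t
          by_cases ht : t = i
          · subst ht
            simp only [Finset.mem_insert, true_or, if_true, hi, if_false]
            revert hpi
            cases p t <;> cases c t <;> simp
          · simp [Finset.mem_insert, ht]
        rw [e]
        exact h
  apply hp
  have := main Finset.univ
  simpa using this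

/-- The relation lemma: after identification of variables (representatives `r`), a nontrivial
complement-closed relation forces two variables to be equal or forces them to be different. -/
theorem relation {T : Type} [Finite T] (R : (T → Bool) → Prop)
    (hcomp : ∀ p, R p → R (fun t => !p t)) (h1 : ∃ p, R p) (h2 : ∃ p, ¬ R p) :
    ∃ (r : T → T) (u v : T) (σ : Bool), (∀ t, r (r t) = r t) ∧ r u = u ∧ r v = v ∧ u ≠ v ∧
      (∃ p : T → Bool, R (fun t => p (r t))) ∧
      ∀ p : T → Bool, R (fun t => p (r t)) → (p u = p v ↔ σ = true) := by
  classical
  obtain ⟨c0, i, hc0, hn0⟩ := exists_flip R h1 h2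
  -- we may assume `c i = false`
  obtain ⟨c, hci, hc, hn⟩ : ∃ c : T → Bool, c i = false ∧ R c ∧
      ¬ R (fun t => if t = i then true else c t) := by
    rcases hb : c0 i with _ | _
    · refine ⟨c0, hb, hc0, ?_⟩
      intro h
      apply hn0
      convert h using 2 with t
      by_cases ht : t = i
      · simp [ht, hb]
      · simp [ht]
    · refine ⟨fun t => !c0 t, by simp [hb], hcomp _ hc0, ?_⟩
      intro h
      apply hn0
      have := hcomp _ h
      convert this using 2 with t
      by_cases ht : t = i
      · simp [ht, hb]
      · simp [ht]
  -- patterns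
  let pat : Bool → Bool → Bool → T → Bool := fun α β ζ t =>
    if t = i then ζ else if c t = true then β else α
  have hpc : R (pat false true false) := by
    have e : pat false true false = c := by
      funext t
      by_cases ht : t = i
      · simp [pat, ht, hci]
      · rcases hb : c t with _ | _ <;> simp [pat, ht, hb]
    rw [e]
    exact hc
  have hpn : ¬ R (pat false true true) := by
    intro h
    apply hn
    convert h using 2 with t
    by_cases ht : t = i
    · simp [pat, ht]
    · rcases hb : c t with _ | _ <;> simp [pat, ht, hb]
  have hpcomp : ∀ α β ζ, R (pat α β ζ) → R (pat (!α) (!β) (!ζ)) := by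
    intro α β ζ h
    convert hcomp _ h using 2 with t
    by_cases ht : t = i
    · simp [pat, ht]
    · rcases hb : c t with _ | _ <;> simp [pat, ht, hb]
  have hpn' : ¬ R (pat true false false) := fun h => hpn (by simpa using hpcomp _ _ _ h)
  have hpc' : R (pat true false true) := by simpa using hpcomp _ _ _ hpc
  -- the classes
  by_cases hA : ∃ a, a ≠ i ∧ c a = false
  · obtain ⟨a, hai, hca⟩ := hA
    by_cases hB : ∃ b, b ≠ i ∧ c b = true
    · obtain ⟨b, hbi, hcb⟩ := hB
      have hab : a ≠ b := fun h => by
        rw [h, hcb] at hca
        exact absurd hca (by decide)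
      let r : T → T := fun t => if t = i then i else if c t = true then b else a
      have ri : r i = i := by simp [r]
      have ra : r a = a := by simp [r, hai, hca]
      have rb : r b = b := by simp [r, hbi, hcb]
      have hrr : ∀ t, r (r t) = r t := by
        intro t
        by_cases ht : t = i
        · rw [ht, ri, ri]
        · rcases hb : c t with _ | _
          · have : r t = a := by simp [r, ht, hb]
            rw [this, ra]
          · have : r t = b := by simp [r, ht, hb]
            rw [this, rb]
      have hpr : ∀ p : T → Bool, (fun t => p (r t)) = pat (p a) (p b) (p i) := by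
        intro p
        funext t
        by_cases ht : t = i
        · simp [pat, ht, ri]
        · rcases hb : c t with _ | _
          · have : r t = a := by simp [r, ht, hb]
            simp [pat, ht, hb, this]
          · have : r t = b := by simp [r, ht, hb]
            simp [pat, ht, hb, this]
      have hex : ∀ α β ζ, ∃ p : T → Bool, p a = α ∧ p b = β ∧ p i = ζ := by
        intro α β ζ
        refine ⟨fun t => if t = i then ζ else if t = a then α else β, ?_, ?_, ?_⟩
        · simp [hai]
        · simp [hbi, hab.symm]
        · simp
      by_cases hX : R (pat false false false)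
      · by_cases hY : R (pat false false true)
        · -- merge `b` and `i`
          let r' : T → T := fun t => if t ≠ i ∧ c t = false then a else i
          have ri' : r' i = i := by simp [r']
          have ra' : r' a = a := by simp [r', hai, hca]
          have hpr' : ∀ p : T → Bool, (fun t => p (r' t)) = pat (p a) (p i) (p i) := by
            intro p
            funext t
            by_cases ht : t = i
            · simp [pat, ht, ri']
            · rcases hb : c t with _ | _
              · have : r' t = a := by simp [r', ht, hb]
                simp [pat, ht, hb, this]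
              · have : r' t = i := by simp [r', hb]
                simp [pat, ht, hb, this]
          refine ⟨r', a, i, true, ?_, ra', ri', hai, ?_, ?_⟩
          · intro t
            by_cases ht : t ≠ i ∧ c t = false
            · have : r' t = a := by simp only [r', if_pos ht]
              rw [this, ra']
            · have : r' t = i := by simp only [r', if_neg ht]
              rw [this, ri']
          · refine ⟨fun _ => false, ?_⟩
            rw [hpr' (fun _ => false)]
            exact hX
          · intro p hp
            rw [hpr'] at hp
            rcases h1 : p a with _ | _ <;> rcases h2 : p i with _ | _ <;>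
              rw [h1, h2] at hp <;> simp only [reduceCtorEq, true_iff, iff_true, false_iff]
            · exact absurd hp hpn
            · exact absurd hp hpn'
        · -- `i` and `a` agree
          refine ⟨r, i, a, true, hrr, ri, ra, hai.symm, ?_, ?_⟩
          · obtain ⟨p, h1, h2, h3⟩ := hex false true false
            refine ⟨p, ?_⟩
            rw [hpr, h1, h2, h3]
            exact hpc
          · intro p hp
            rw [hpr] at hp
            have hY' : ¬ R (pat true true false) := fun h => hY (by simpa using hpcomp _ _ _ h)
            rcases h1 : p a with _ | _ <;> rcases h2 : p b with _ | _ <;>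
              rcases h3 : p i with _ | _ <;> rw [h1, h2, h3] at hp <;>
              simp only [reduceCtorEq, iff_true, false_iff] <;>
              first
                | exact absurd hp hY
                | exact absurd hp hY'
                | exact absurd hp hpn
                | exact absurd hp hpn'
      · have hX' : ¬ R (pat true true true) := fun h => hX (by simpa using hpcomp _ _ _ h)
        by_cases hY : R (pat false false true)
        · -- `b` and `i` differ
          refine ⟨r, i, b, false, hrr, ri, rb, hbi.symm, ?_, ?_⟩
          · obtain ⟨p, h1, h2, h3⟩ := hex false true false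
            refine ⟨p, ?_⟩
            rw [hpr, h1, h2, h3]
            exact hpc
          · intro p hp
            rw [hpr] at hp
            rcases h1 : p a with _ | _ <;> rcases h2 : p b with _ | _ <;>
              rcases h3 : p i with _ | _ <;> rw [h1, h2, h3] at hp <;>
              simp only [reduceCtorEq, iff_false, not_true_eq_false, not_false_eq_true] <;>
              first
                | exact absurd hp hX
                | exact absurd hp hX'
                | exact absurd hp hpn
                | exact absurd hp hpn'
        · have hY' : ¬ R (pat true true false) := fun h => hY (by simpa using hpcomp _ _ _ h)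
          refine ⟨r, a, b, false, hrr, ra, rb, hab, ?_, ?_⟩
          · obtain ⟨p, h1, h2, h3⟩ := hex false true false
            refine ⟨p, ?_⟩
            rw [hpr, h1, h2, h3]
            exact hpc
          · intro p hp
            rw [hpr] at hp
            rcases h1 : p a with _ | _ <;> rcases h2 : p b with _ | _ <;>
              rcases h3 : p i with _ | _ <;> rw [h1, h2, h3] at hp <;>
              simp only [reduceCtorEq, iff_false, not_true_eq_false, not_false_eq_true] <;>
              first
                | exact absurd hp hX
                | exact absurd hp hX'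
                | exact absurd hp hY
                | exact absurd hp hY'
    · -- `B` is empty
      push Not at hB
      have hB' : ∀ t, t ≠ i → c t = false := fun t ht => by
        rcases hb : c t with _ | _
        · rfl
        · exact absurd hb (hB t ht)
      let r : T → T := fun t => if t = i then i else a
      have ri : r i = i := by simp [r]
      have ra : r a = a := by simp [r, hai]
      have hpr : ∀ (p : T → Bool) (β : Bool), (fun t => p (r t)) = pat (p a) β (p i) := by
        intro p β
        funext t
        by_cases ht : t = i
        · simp [pat, ht, ri]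
        · have : r t = a := by simp [r, ht]
          simp [pat, ht, hB' t ht, this]
      refine ⟨r, i, a, true, ?_, ri, ra, hai.symm, ?_, ?_⟩
      · intro t
        by_cases ht : t = i
        · rw [ht, ri, ri]
        · have : r t = a := by simp [r, ht]
          rw [this, ra]
      · refine ⟨fun _ => false, ?_⟩
        rw [hpr (fun _ => false) true]
        exact hpc
      · intro p hp
        rcases h1 : p a with _ | _ <;> rcases h3 : p i with _ | _ <;>
          simp only [reduceCtorEq, iff_true, false_iff]
        · rw [hpr p true, h1, h3] at hp
          exact absurd hp hpn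
        · rw [hpr p false, h1, h3] at hp
          exact absurd hp hpn'
  · -- `A` is empty
    push Not at hA
    have hA' : ∀ t, t ≠ i → c t = true := fun t ht => by
      rcases hb : c t with _ | _
      · exact absurd hb (hA t ht)
      · rfl
    by_cases hB : ∃ b, b ≠ i
    · obtain ⟨b, hbi⟩ := hB
      let r : T → T := fun t => if t = i then i else b
      have ri : r i = i := by simp [r]
      have rb : r b = b := by simp [r, hbi]
      have hpr : ∀ (p : T → Bool) (α : Bool), (fun t => p (r t)) = pat α (p b) (p i) := by
        intro p α
        funext t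
        by_cases ht : t = i
        · simp [pat, ht, ri]
        · have : r t = b := by simp [r, ht]
          simp [pat, ht, hA' t ht, this]
      refine ⟨r, i, b, false, ?_, ri, rb, hbi.symm, ?_, ?_⟩
      · intro t
        by_cases ht : t = i
        · rw [ht, ri, ri]
        · have : r t = b := by simp [r, ht]
          rw [this, rb]
      · let p : T → Bool := fun t => if t = i then false else true
        have pb : p b = true := by simp [p, hbi]
        have pi : p i = false := by simp [p]
        refine ⟨p, ?_⟩
        rw [hpr p false, pb, pi]
        exact hpc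
      · intro p hp
        rcases h1 : p b with _ | _ <;> rcases h3 : p i with _ | _ <;>
          simp only [reduceCtorEq, iff_false, not_true_eq_false, not_false_eq_true]
        · rw [hpr p true, h1, h3] at hp
          exact absurd hp hpn'
        · rw [hpr p false, h1, h3] at hp
          exact absurd hp hpn
    · -- only one variable: impossible
      push Not at hB
      exfalso
      apply hpn
      convert hcomp _ hpc using 2 with t
      simp [pat, hB t]

/-- One leaf is enough: every family of between `2` and `g` hyperedges has a leaf. -/
def Sparse1 {T V M : Type} (g : ℕ) (δ : M → T → V) : Prop :=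
  ∀ S : Finset M, 2 ≤ S.card → S.card ≤ g → ∃ m ∈ S, Leaf δ S m

/-- Two different hyperedges share at most one point. -/
def Linear {T V M : Type} (δ : M → T → V) : Prop :=
  ∀ m m', m ≠ m' → ∀ t t' s s', δ m t = δ m' t' → δ m s = δ m' s' → t = s

/-- A sparse constraint system that is satisfiable and forces two variables to be equal or forces
them to be different. -/
theorem forced {T : Type} [Finite T] (ρ : (T → Bool) → Prop)
    (hcomp : ∀ p, ρ p → ρ (fun t => !p t)) (hne : ∃ p, ρ p) (hconst : ∀ b, ¬ ρ (fun _ => b))
    (g : ℕ) :
    ∃ (V M : Type) (_ : Finite V) (_ : Finite M) (δ : M → T → V) (a b : V) (σ : Bool),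
      (∀ m, Function.Injective (δ m)) ∧ Sparse1 g δ ∧ Linear δ ∧ a ≠ b ∧
      (∃ s : V → Bool, ∀ m, ρ (fun t => s (δ m t))) ∧
      ∀ s : V → Bool, (∀ m, ρ (fun t => s (δ m t))) → (s a = s b ↔ σ = true) := by
  classical
  obtain ⟨V, M, hV, hM, δ, hδ, hmono, hsp⟩ := good (g + 2) T Bool
  have := Fintype.ofFinite M
  -- satisfiable subfamilies
  let Sat : Finset M → Prop := fun D => ∃ s : V → Bool, ∀ m ∈ D, ρ (fun t => s (δ m t))
  have hT : Nonempty T := by
    by_contra hT
    obtain ⟨p, hp⟩ := hne
    have e : p = fun _ => true := funext fun t => absurd ⟨t⟩ hT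
    rw [e] at hp
    exact hconst true hp
  have hsat0 : Sat ∅ := ⟨fun _ => true, fun m hm => absurd hm (Finset.notMem_empty _)⟩
  have hsat1 : ¬ Sat Finset.univ := by
    rintro ⟨s, hs⟩
    obtain ⟨m, hm⟩ := hmono s
    obtain ⟨t0⟩ := hT
    apply hconst (s (δ m t0))
    convert hs m (Finset.mem_univ _) using 2 with t
    exact hm t0 t
  obtain ⟨D, m0, hm0, hD, hD'⟩ : ∃ (D : Finset M) (m0 : M), m0 ∉ D ∧ Sat D ∧
      ¬ Sat (insert m0 D) := by
    by_contra hcon
    push Not at hcon
    have main : ∀ D : Finset M, Sat D := by
      intro D
      induction D using Finset.induction_on with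
      | empty => exact hsat0
      | insert m D hm ih => exact hcon D m hm ih
    exact hsat1 (main _)
  -- the relation of the rest on the points of `m0`
  let R : (T → Bool) → Prop := fun p => ∃ s : V → Bool, (∀ m ∈ D, ρ (fun t => s (δ m t))) ∧
    ∀ t, s (δ m0 t) = p t
  obtain ⟨r, u, v, σ, hrr, hru, hrv, huv, ⟨p0, hp0⟩, hforce⟩ := relation R (by
      rintro p ⟨s, hs1, hs2⟩
      exact ⟨fun x => !s x, fun m hm => hcomp _ (hs1 m hm), fun t => by simp only [hs2]⟩) (by
      obtain ⟨s, hs⟩ := hD
      exact ⟨_, s, hs, fun t => rfl⟩) (by
      obtain ⟨p, hp⟩ := hne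
      refine ⟨p, ?_⟩
      rintro ⟨s, hs1, hs2⟩
      apply hD'
      refine ⟨s, fun m hm => ?_⟩
      rcases Finset.mem_insert.1 hm with h | h
      · rw [h]
        convert hp using 2 with t
        exact hs2 t
      · exact hs1 m h)
  -- identification
  let q : V → V := fun x => if h : ∃ t, δ m0 t = x then δ m0 (r h.choose) else x
  have hq0 : ∀ t, q (δ m0 t) = δ m0 (r t) := by
    intro t
    have h : ∃ t', δ m0 t' = δ m0 t := ⟨t, rfl⟩
    simp only [q, dif_pos h]
    rw [hδ m0 h.choose_spec]
  have hq1 : ∀ x, (∀ t, δ m0 t ≠ x) → q x = x := by
    intro x hx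
    have h : ¬ ∃ t, δ m0 t = x := by
      push Not
      exact hx
    simp only [q, dif_neg h]
  have hqeq : ∀ x y, q x = q y → x = y ∨ ((∃ t, δ m0 t = x) ∧ ∃ t, δ m0 t = y) := by
    intro x y hxy
    by_cases hx : ∃ t, δ m0 t = x
    · by_cases hy : ∃ t, δ m0 t = y
      · exact Or.inr ⟨hx, hy⟩
      · push Not at hy
        obtain ⟨t, rfl⟩ := hx
        rw [hq0, hq1 y hy] at hxy
        exact absurd hxy (hy _)
    · by_cases hy : ∃ t, δ m0 t = y
      · push Not at hx
        obtain ⟨t, rfl⟩ := hy
        rw [hq0, hq1 x hx] at hxy
        exact absurd hxy.symm (hx _)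
      · push Not at hx hy
        rw [hq1 x hx, hq1 y hy] at hxy
        exact Or.inl hxy
  -- two old hyperedges share at most one point
  have hlin : ∀ m m', m ≠ m' → ∀ t t' s s', δ m t = δ m' t' → δ m s = δ m' s' → t = s := by
    intro m m' hmm t t' s s' h1 h2
    have hcard : ({m, m'} : Finset M).card = 2 := Finset.card_pair hmm
    obtain ⟨x, hx, y, hy, hxy, hlx, hly⟩ := hsp {m, m'} (by omega) (by omega)
    have hml : Leaf δ {m, m'} m := by
      rcases Finset.mem_insert.1 hx with h | h
      · exact h ▸ hlx
      · rcases Finset.mem_insert.1 hy with h' | h'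
        · exact h' ▸ hly
        · rw [Finset.mem_singleton] at h h'
          exact absurd (h.trans h'.symm) hxy
    exact hδ m (hml m' (by simp) m' (by simp) hmm.symm hmm.symm t t' s s' h1 h2)
  let M' : Type := {m : M // m ∈ D}
  have hne0 : ∀ m : M', m.1 ≠ m0 := fun m h => hm0 (h ▸ m.2)
  let δ' : M' → T → V := fun m t => q (δ m.1 t)
  -- shared points of the new hyperedges
  have hshare : ∀ (m m' : M'), m ≠ m' → ∀ t t', δ' m t = δ' m' t' →
      (∃ k, (k = m'.1 ∨ k = m0) ∧ ∃ s, δ m.1 t = δ k s) := by
    intro m m' hmm t t' h
    rcases hqeq _ _ h with h1 | ⟨⟨s, hs⟩, _⟩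
    · exact ⟨m'.1, Or.inl rfl, t', h1⟩
    · exact ⟨m0, Or.inr rfl, s, hs.symm⟩
  have hinj : ∀ m, Function.Injective (δ' m) := by
    intro m t s hts
    rcases hqeq _ _ hts with h1 | ⟨⟨t1, h2⟩, ⟨t2, h3⟩⟩
    · exact hδ m.1 h1
    · exact hlin m.1 m0 (hne0 m) t t1 s t2 h2.symm h3.symm
  have hleafnew : ∀ (S : Finset M') (m : M'), m ∈ S →
      Leaf δ (insert m0 (S.image Subtype.val)) m.1 → Leaf δ' S m := by
    intro S m hm hl m' hm' m'' hm'' hne' hne'' t t' s s' e1 e2
    obtain ⟨k1, hk1, s1, hs1⟩ := hshare m m' hne'.symm t t' e1
    obtain ⟨k2, hk2, s2, hs2⟩ := hshare m m'' hne''.symm s s' e2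
    have mem : ∀ (k : M) (l : M'), l ∈ S → (k = l.1 ∨ k = m0) →
        k ∈ insert m0 (S.image Subtype.val) := by
      intro k l hl hk
      rcases hk with rfl | rfl
      · exact Finset.mem_insert_of_mem (Finset.mem_image_of_mem _ hl)
      · exact Finset.mem_insert_self _ _
    have ne : ∀ (k : M) (l : M'), l ≠ m → (k = l.1 ∨ k = m0) → k ≠ m.1 := by
      intro k l hl hk
      rcases hk with rfl | rfl
      · exact fun h => hl (Subtype.ext h)
      · exact fun h => hne0 m h.symm
    have := hl k1 (mem k1 m' hm' hk1) k2 (mem k2 m'' hm'' hk2) (ne k1 m' hne' hk1)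
      (ne k2 m'' hne'' hk2) t s1 s s2 hs1 hs2
    show q (δ m.1 t) = q (δ m.1 s)
    rw [this]
  have hsp1 : Sparse1 (g + 2) δ' := by
    intro S h2 hg
    have hnotin : m0 ∉ S.image Subtype.val := by
      intro h
      obtain ⟨m, _, hm⟩ := Finset.mem_image.1 h
      exact hne0 m hm
    have hcard : (insert m0 (S.image Subtype.val)).card = S.card + 1 := by
      rw [Finset.card_insert_of_notMem hnotin, Finset.card_image_of_injective _
        Subtype.val_injective]
    obtain ⟨x, hx, y, hy, hxy, hlx, hly⟩ := hsp (insert m0 (S.image Subtype.val)) (by omega)
      (by omega)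
    have key : ∀ z, z ∈ insert m0 (S.image Subtype.val) → z ≠ m0 →
        Leaf δ (insert m0 (S.image Subtype.val)) z → ∃ m ∈ S, Leaf δ' S m := by
      intro z hz hz0 hl
      rcases Finset.mem_insert.1 hz with h | h
      · exact absurd h hz0
      · obtain ⟨m, hm, rfl⟩ := Finset.mem_image.1 h
        exact ⟨m, hm, hleafnew S m hm hl⟩
    by_cases hx0 : x = m0
    · exact key y hy (fun h => hxy (hx0.trans h.symm)) hly
    · exact key x hx hx0 hlx
  refine ⟨V, M', hV, inferInstance, δ', δ m0 u, δ m0 v, σ, hinj,
    fun S h2 hg => hsp1 S h2 (by omega), ?_, ?_, ?_, ?_⟩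
  · -- linearity
    intro m m' hmm t t' s s' e1 e2
    have hcard : ({m, m'} : Finset M').card = 2 := Finset.card_pair hmm
    obtain ⟨x, hx, hl⟩ := hsp1 {m, m'} (by omega) (by omega)
    rcases Finset.mem_insert.1 hx with h | h
    · subst h
      exact hinj x (hl m' (by simp) m' (by simp) hmm.symm hmm.symm t t' s s' e1 e2)
    · rw [Finset.mem_singleton] at h
      subst h
      have := hl m (by simp) m (by simp) hmm hmm t' t s' s e1.symm e2.symm
      exact hinj m (by rw [e1, e2, this])
  · intro h
    exact huv (hδ m0 h)
  · obtain ⟨s, hs1, hs2⟩ := hp0
    refine ⟨s, fun m => ?_⟩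
    have hsq : ∀ x, s (q x) = s x := by
      intro x
      by_cases hx : ∃ t, δ m0 t = x
      · obtain ⟨t, rfl⟩ := hx
        rw [hq0, hs2, hs2]
        simp only [hrr]
      · push Not at hx
        rw [hq1 x hx]
    have := hs1 m.1 m.2
    convert this using 2 with t
    exact hsq _
  · intro s hs
    exact hforce (fun t => s (δ m0 t)) ⟨fun x => s (q x), fun m hm => hs ⟨m, hm⟩,
      fun t => by simp only [hq0]⟩

end Pool.Agent.Lib.MP_3240be_co.H82
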