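import Mathlib
import Pool.Agent.Lib.MP_3240be_co.H36.Chrom.Canonical
import Pool.Agent.Lib.MP_3240be_co.H82.Basic
import Pool.Agent.Lib.MP_3240be_co.H82.Rel

set_option autoImplicit false

/-!
# The star relation
-/

namespace Pool.Agent.Lib.MP_3240be_co.H82

open Pool.Agent.Lib.MP_3240be_co.H36.Chrom

/-- Ramsey's theorem: large complete graphs have no good colouring. -/
theorem ramsey_good {n : ℕ} (H : SimpleGraph (Fin n)) : ∃ m : ℕ, ∀ c : Fin m → Fin m → Bool,
    (∀ x y, c x y = c y x) → ¬ Good H (⊤ : SimpleGraph (Fin m)) c := by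
  classical
  obtain ⟨R, hR⟩ := ramsey_fin Bool n
  refine ⟨R, fun c hc hgood => ?_⟩
  let χ : Finset ℕ → Bool := fun K =>
    if h : ∃ p : Fin R × Fin R, p.1 ≠ p.2 ∧ K = {p.1.1, p.2.1} then c h.choose.1 h.choose.2
    else false
  have hχ : ∀ x y : Fin R, x ≠ y → χ {x.1, y.1} = c x y := by
    intro x y hxy
    have h : ∃ p : Fin R × Fin R, p.1 ≠ p.2 ∧ ({x.1, y.1} : Finset ℕ) = {p.1.1, p.2.1} :=
      ⟨(x, y), hxy, rfl⟩
    simp only [χ, dif_pos h]
    obtain ⟨h1, h2⟩ := h.choose_spec
    have h3 : x.1 ∈ ({h.choose.1.1, h.choose.2.1} : Finset ℕ) := by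
      rw [← h2]
      simp
    have h4 : y.1 ∈ ({h.choose.1.1, h.choose.2.1} : Finset ℕ) := by
      rw [← h2]
      simp
    simp only [Finset.mem_insert, Finset.mem_singleton] at h3 h4
    have hxy' : x.1 ≠ y.1 := fun h => hxy (Fin.ext h)
    rcases h3 with h3 | h3 <;> rcases h4 with h4 | h4
    · exact absurd (h3.trans h4.symm) hxy'
    · rw [← Fin.ext h3, ← Fin.ext h4]
    · rw [← Fin.ext h3, ← Fin.ext h4, hc]
    · exact absurd (h3.trans h4.symm) hxy'
  obtain ⟨S, hS, hcard, hmono⟩ := hR χ
  let e := S.orderEmbOfFin hcard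
  have he : ∀ i, e i ∈ S := fun i => Finset.orderEmbOfFin_mem S hcard i
  let f : Fin n → Fin R := fun i => ⟨e i, Finset.mem_range.1 (hS (he i))⟩
  have hf : Function.Injective f := by
    intro i j hij
    exact e.injective (congrArg Fin.val hij)
  by_cases hn : ∃ p : Fin n × Fin n, p.1 ≠ p.2
  · obtain ⟨⟨i0, j0⟩, hij0⟩ := hn
    refine hgood (c (f i0) (f j0)) f hf (fun i j hij => ⟨?_, ?_⟩)
    · rw [SimpleGraph.top_adj]
      exact fun h => hij.ne (hf h)
    · have hne1 : f i ≠ f j := fun h => hij.ne (hf h)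
      have hne2 : f i0 ≠ f j0 := fun h => hij0 (hf h)
      rw [← hχ _ _ hne1, ← hχ _ _ hne2]
      apply hmono
      · intro x hx
        rcases Finset.mem_insert.1 hx with h | h
        · rw [h]
          exact he i
        · rw [Finset.mem_singleton.1 h]
          exact he j
      · intro x hx
        rcases Finset.mem_insert.1 hx with h | h
        · rw [h]
          exact he i0
        · rw [Finset.mem_singleton.1 h]
          exact he j0
      · rw [Finset.card_pair (fun h => hne1 (Fin.ext h)),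
          Finset.card_pair (fun h => hne2 (Fin.ext h))]
  · push Not at hn
    refine hgood true f hf (fun i j hij => absurd (hn (i, j)) hij.ne)

/-- The parity of a natural number. -/
def par (i : ℕ) : Bool := decide (i % 2 = 0)

theorem par_even (i : ℕ) : par (2 * i) = true := by
  unfold par
  exact decide_eq_true (by omega)

theorem par_odd (i : ℕ) : par (2 * i + 1) = false := by
  unfold par
  exact decide_eq_false (by omega)

/-- The complete graph on `Fin m`; if `p` holds, the complete bipartite graph between the even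
and the odd numbers. -/
def CG (p : Prop) (m : ℕ) : SimpleGraph (Fin m) where
  Adj i j := i ≠ j ∧ (p → par i.1 ≠ par j.1)
  symm := ⟨fun _ _ h => ⟨h.1.symm, fun hp => (h.2 hp).symm⟩⟩
  loopless := ⟨fun _ h => h.1 rfl⟩

/-- A large complete bipartite graph is Ramsey for a bipartite graph. -/
theorem bip_good {n : ℕ} (H : SimpleGraph (Fin n)) (κ : Fin n → Bool)
    (hκ : ∀ x y, H.Adj x y → κ x ≠ κ y) : ∃ m : ℕ, ∀ c : Fin m → Fin m → Bool,
    (∀ x y, c x y = c y x) → ¬ Good H (CG True m) c := by
  classical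
  let N := Fintype.card (Fin (2 * n) → Bool) * n + 1
  have hm : ∃ m, 2 * (2 * n) ≤ m ∧ 2 * N + 1 ≤ m := ⟨2 * (2 * n) + (2 * N + 1), by omega, by omega⟩
  obtain ⟨m, hm1, hm2⟩ := hm
  refine ⟨m, fun c hc hgood => ?_⟩
  let e : Fin (2 * n) → Fin m := fun i => ⟨2 * i.1, by have := i.2; omega⟩
  let o : Fin N → Fin m := fun j => ⟨2 * j.1 + 1, by have := j.2; omega⟩
  have he : Function.Injective e := by
    intro i j h
    have := congrArg Fin.val h
    simp only [e] at this
    exact Fin.ext (by omega)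
  have ho : Function.Injective o := by
    intro i j h
    have := congrArg Fin.val h
    simp only [o] at this
    exact Fin.ext (by omega)
  have heo : ∀ i j, e i ≠ o j := by
    intro i j h
    have := congrArg Fin.val h
    simp only [e, o] at this
    omega
  have hadj : ∀ i j, (CG True m).Adj (e i) (o j) := by
    intro i j
    refine ⟨heo i j, fun _ => ?_⟩
    show par (2 * i.1) ≠ par (2 * j.1 + 1)
    rw [par_even, par_odd]
    decide
  -- many odd vertices with the same pattern
  obtain ⟨P, hP⟩ := Fintype.exists_lt_card_fiber_of_mul_lt_card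
    (f := fun (j : Fin N) (i : Fin (2 * n)) => c (e i) (o j)) (n := n) (by
      rw [Fintype.card_fin]
      exact Nat.lt_succ_self _)
  -- many even vertices with the same colour
  obtain ⟨b, hb⟩ : ∃ b : Bool, n ≤ (Finset.univ.filter (fun i => P i = b)).card := by
    by_contra hcon
    push Not at hcon
    have h1 := hcon true
    have h2 := hcon false
    have h3 := Finset.card_filter_add_card_filter_not (s := (Finset.univ : Finset (Fin (2 * n))))
      (fun i => P i = true)
    simp only [Bool.not_eq_true] at h3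
    rw [Finset.card_univ, Fintype.card_fin] at h3
    omega
  obtain ⟨A, hA1, hA2⟩ := Finset.exists_subset_card_eq hb
  obtain ⟨B, hB1, hB2⟩ := Finset.exists_subset_card_eq (le_of_lt hP)
  let α : Fin n ≃ A := (Finset.equivFinOfCardEq hA2).symm
  let β : Fin n ≃ B := (Finset.equivFinOfCardEq hB2).symm
  have hαβ : ∀ i j, c (e (α i)) (o (β j)) = b := by
    intro i j
    have h1 := (Finset.mem_filter.1 (hA1 (α i).2)).2
    have h2 := (Finset.mem_filter.1 (hB1 (β j).2)).2
    rw [← h1, ← h2]
  let f : Fin n → Fin m := fun x => if κ x then e (α x) else o (β x)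
  have ft : ∀ x, κ x = true → f x = e (α x) := fun x h => by simp only [f, h, if_true]
  have ff : ∀ x, κ x = false → f x = o (β x) := fun x h => by
    simp only [f, h, Bool.false_eq_true, if_false]
  refine hgood b f ?_ ?_
  · intro x y hxy
    rcases Bool.eq_false_or_eq_true (κ x) with h1 | h1 <;>
      rcases Bool.eq_false_or_eq_true (κ y) with h2 | h2
    · rw [ft x h1, ft y h2] at hxy
      exact α.injective (Subtype.ext (he hxy))
    · rw [ft x h1, ff y h2] at hxy
      exact absurd hxy (heo _ _)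
    · rw [ff x h1, ft y h2] at hxy
      exact absurd hxy.symm (heo _ _)
    · rw [ff x h1, ff y h2] at hxy
      exact β.injective (Subtype.ext (ho hxy))
  · intro x y hxy
    have hne := hκ x y hxy
    rcases Bool.eq_false_or_eq_true (κ x) with h1 | h1 <;>
      rcases Bool.eq_false_or_eq_true (κ y) with h2 | h2
    · exact absurd (h1.trans h2.symm) hne
    · rw [ft x h1, ff y h2]
      exact ⟨hadj _ _, hαβ _ _⟩
    · rw [ff x h1, ft y h2]
      exact ⟨(hadj _ _).symm, by rw [hc, hαβ]⟩
    · exact absurd (h1.trans h2.symm) hne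

theorem cg_good (p : Prop) {n : ℕ} (H : SimpleGraph (Fin n))
    (hκ : p → ∃ κ : Fin n → Bool, ∀ x y, H.Adj x y → κ x ≠ κ y) :
    ∃ m : ℕ, ∀ c : Fin m → Fin m → Bool, (∀ x y, c x y = c y x) → ¬ Good H (CG p m) c := by
  by_cases hp : p
  · obtain ⟨κ, hκ⟩ := hκ hp
    obtain ⟨m, hm⟩ := bip_good H κ hκ
    refine ⟨m, fun c hc hg => hm c hc ?_⟩
    intro b f hf hmono
    exact hg b f hf (fun i j hij => ⟨⟨(hmono i j hij).1.1, fun _ => (hmono i j hij).1.2 trivial⟩,
      (hmono i j hij).2⟩)
  · obtain ⟨m, hm⟩ := ramsey_good H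
    refine ⟨m, fun c hc hg => hm c hc ?_⟩
    intro b f hf hmono
    exact hg b f hf (fun i j hij => ⟨⟨(hmono i j hij).1, fun h => absurd h hp⟩,
      (hmono i j hij).2⟩)

/-- The graph `B` with an apex joined to the vertices in `Tp`. -/
def SG {N : ℕ} (B : SimpleGraph (Fin N)) (Tp : Fin N → Prop) : SimpleGraph (Option (Fin N)) where
  Adj x y := (∃ i j, x = some i ∧ y = some j ∧ B.Adj i j) ∨ (∃ i : Fin N, Tp i ∧
    ((x = none ∧ y = some i) ∨ (x = some i ∧ y = none)))
  symm := ⟨by
    rintro x y (⟨i, j, h1, h2, h3⟩ | ⟨i, h1, h2 | h2⟩)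
    · exact Or.inl ⟨j, i, h2, h1, h3.symm⟩
    · exact Or.inr ⟨i, h1, Or.inr ⟨h2.2, h2.1⟩⟩
    · exact Or.inr ⟨i, h1, Or.inl ⟨h2.2, h2.1⟩⟩⟩
  loopless := ⟨by
    rintro x (⟨i, j, h1, h2, h3⟩ | ⟨i, h1, h2 | h2⟩)
    · rw [h1] at h2
      exact h3.ne (Option.some_injective _ h2)
    · rw [h2.1] at h2
      exact absurd h2.2 (by simp)
    · rw [h2.1] at h2
      exact absurd h2.2 (by simp)⟩

theorem SG_none {N : ℕ} {B : SimpleGraph (Fin N)} {Tp : Fin N → Prop} {y : Option (Fin N)}
    (h : (SG B Tp).Adj none y) : ∃ i : Fin N, Tp i ∧ y = some i := by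
  rcases h with ⟨i, j, h1, _, _⟩ | ⟨i, h1, h2 | h2⟩
  · exact absurd h1 (by simp)
  · exact ⟨i, h1, h2.2⟩
  · exact absurd h2.1 (by simp)

theorem SG_none_some {N : ℕ} {B : SimpleGraph (Fin N)} {Tp : Fin N → Prop} {i : Fin N} :
    (SG B Tp).Adj none (some i) ↔ Tp i := by
  constructor
  · intro h
    obtain ⟨j, hj, hij⟩ := SG_none h
    rw [Option.some_injective _ hij]
    exact hj
  · intro h
    exact Or.inr ⟨i, h, Or.inl ⟨rfl, rfl⟩⟩

theorem SG_some_some {N : ℕ} {B : SimpleGraph (Fin N)} {Tp : Fin N → Prop} {i j : Fin N} :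
    (SG B Tp).Adj (some i) (some j) ↔ B.Adj i j := by
  constructor
  · rintro (⟨i', j', h1, h2, h3⟩ | ⟨i', h1, h2 | h2⟩)
    · rw [Option.some_injective _ h1, Option.some_injective _ h2]
      exact h3
    · exact absurd h2.1 (by simp)
    · exact absurd h2.2 (by simp)
  · intro h
    exact Or.inl ⟨i, j, rfl, rfl, h⟩

/-- The star relation. -/
def srho {n : ℕ} (H : SimpleGraph (Fin n)) {N : ℕ} (B : SimpleGraph (Fin N)) (Tp : Fin N → Prop)
    (q : {i : Fin N // Tp i} → Bool) : Prop :=
  ∃ c : Option (Fin N) → Option (Fin N) → Bool, (∀ x y, c x y = c y x) ∧ Good H (SG B Tp) c ∧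
    ∀ t, c none (some t.1) = q t

/-- There is a star relation that is nonempty and does not contain the constants. -/
theorem exists_srho {p : Prop} {n : ℕ} (H : SimpleGraph (Fin n)) (hH : TC p H) :
    ∃ (N : ℕ) (B : SimpleGraph (Fin N)) (Tp : Fin N → Prop),
      (p → ∃ cl : Fin N → Bool, (∀ i j, B.Adj i j → cl i ≠ cl j) ∧ ∀ i, Tp i → cl i = true) ∧
      (∃ q, srho H B Tp q) ∧ ∀ b, ¬ srho H B Tp (fun _ => b) := by
  classical
  let P : ℕ → Prop := fun m => ∃ c : Fin m → Fin m → Bool, (∀ x y, c x y = c y x) ∧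
    Good H (CG p m) c
  obtain ⟨x0⟩ := hH.ne
  have hP0 : P 0 := ⟨fun _ _ => true, fun _ _ => rfl, fun b f _ _ => (f x0).elim0⟩
  have hPex : ∃ m, ¬ P m := by
    obtain ⟨m, hm⟩ := cg_good p H hH.bip
    exact ⟨m, fun ⟨c, h1, h2⟩ => hm c h1 h2⟩
  obtain ⟨N, hN, hN'⟩ : ∃ N, P N ∧ ¬ P (N + 1) := by
    have h1 := Nat.find_spec hPex
    rcases h : Nat.find hPex with _ | N
    · rw [h] at h1
      exact absurd hP0 h1
    · rw [h] at h1
      refine ⟨N, ?_, h1⟩
      by_contra hcon
      exact Nat.find_min hPex (by omega) hcon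
  let Tk : ℕ → Fin N → Prop := fun k i => i.1 < k ∧ (p → par i.1 ≠ par N)
  -- red stars
  let Q : ℕ → Prop := fun k => ∃ c : Option (Fin N) → Option (Fin N) → Bool,
    (∀ x y, c x y = c y x) ∧ Good H (SG (CG p N) (Tk k)) c ∧ ∀ i, Tk k i → c none (some i) = true
  have hQ0 : Q 0 := by
    obtain ⟨c, hc, hg⟩ := hN
    let c' : Option (Fin N) → Option (Fin N) → Bool := fun x y => match x, y with
      | some i, some j => c i j
      | _, _ => false
    refine ⟨c', ?_, ?_, fun i hi => absurd hi.1 (Nat.not_lt_zero _)⟩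
    · rintro (_ | i) (_ | j)
      · rfl
      · rfl
      · rfl
      · exact hc i j
    · intro b f hf hmono
      refine piece_copy (ι := some) (S := CG p N) (c := c) (C := c')
        (fun u v h => SG_some_some.1 h) (fun u v _ => rfl) hg b f hf ?_ hmono
      intro i
      rcases hfi : f i with _ | u
      · obtain ⟨j, hj⟩ := hH.nbr i
        have := (hmono i j hj).1
        rw [hfi] at this
        obtain ⟨i', hi', _⟩ := SG_none this
        exact absurd hi'.1 (Nat.not_lt_zero _)
      · exact ⟨u, rfl⟩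
  have hQN : ¬ Q N := by
    rintro ⟨c, hc, hg, _⟩
    apply hN'
    let ε : Fin (N + 1) ≃ Option (Fin N) := finSuccEquivLast
    have ε1 : ∀ u : Fin (N + 1), (u = Fin.last N ∧ ε u = none) ∨
        ∃ i : Fin N, u.1 = i.1 ∧ ε u = some i := by
      intro u
      refine Fin.lastCases ?_ (fun i => ?_) u
      · exact Or.inl ⟨rfl, finSuccEquivLast_last⟩
      · exact Or.inr ⟨i, rfl, finSuccEquivLast_castSucc i⟩
    refine ⟨fun u v => c (ε u) (ε v), fun u v => hc _ _, ?_⟩
    refine hg.comap (fun u => ε u) ε.injective (fun u v huv => ?_)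
    obtain ⟨hne, hpar⟩ := huv
    show (SG (CG p N) (Tk N)).Adj (ε u) (ε v)
    rcases ε1 u with ⟨h1, h2⟩ | ⟨i, h1, h2⟩ <;> rcases ε1 v with ⟨h3, h4⟩ | ⟨j, h3, h4⟩
    · exact absurd (h1.trans h3.symm) hne
    · rw [h2, h4]
      refine SG_none_some.2 ⟨j.2, fun hp => ?_⟩
      have := hpar hp
      rw [h1, h3] at this
      exact fun h => this h.symm
    · rw [h2, h4]
      refine (SG_none_some.2 ⟨i.2, fun hp => ?_⟩).symm
      have := hpar hp
      rw [h1, h3] at this
      exact this
    · rw [h2, h4]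
      refine SG_some_some.2 ⟨fun h => hne (Fin.ext (by rw [h1, h3, h])), fun hp => ?_⟩
      have := hpar hp
      rw [h1, h3] at this
      exact this
  have hQex : ∃ k, ¬ Q k := ⟨N, hQN⟩
  obtain ⟨k, hkN, hk, hk'⟩ : ∃ k, k < N ∧ Q k ∧ ¬ Q (k + 1) := by
    have h1 := Nat.find_spec hQex
    have h2 := Nat.find_min' hQex hQN
    rcases h : Nat.find hQex with _ | k
    · rw [h] at h1
      exact absurd hQ0 h1
    · rw [h] at h1 h2
      refine ⟨k, by omega, ?_, h1⟩
      by_contra hcon
      exact Nat.find_min hQex (by omega) hcon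
  have hconst : ¬ srho H (CG p N) (Tk (k + 1)) (fun _ => true) := by
    rintro ⟨c, hc, hg, ht⟩
    exact hk' ⟨c, hc, hg, fun i hi => ht ⟨i, hi⟩⟩
  refine ⟨N, CG p N, Tk (k + 1), ?_, ?_, ?_⟩
  · intro hp
    refine ⟨fun i => decide (par i.1 ≠ par N), ?_, fun i hi => decide_eq_true (hi.2 hp)⟩
    intro i j hij
    have h1 := hij.2 hp
    show decide (par i.1 ≠ par N) ≠ decide (par j.1 ≠ par N)
    revert h1
    cases par i.1 <;> cases par j.1 <;> cases par N <;> decide
  · obtain ⟨c, hc, hg, ht⟩ := hk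
    let kk : Fin N := ⟨k, hkN⟩
    let E : Option (Fin N) → Option (Fin N) → Prop := fun x y =>
      (x = none ∧ y = some kk) ∨ (x = some kk ∧ y = none)
    let c' : Option (Fin N) → Option (Fin N) → Bool := fun x y => if E x y then false else c x y
    have hE : ∀ x y, E x y ↔ E y x := fun x y => by
      simp only [E]
      tauto
    refine ⟨fun t => c' none (some t.1), c', ?_, ?_, fun t => rfl⟩
    · intro x y
      by_cases h : E x y
      · simp only [c', if_pos h, if_pos ((hE x y).1 h)]
      · have h' : ¬ E y x := fun h' => h ((hE x y).2 h')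
        simp only [c', if_neg h, if_neg h', hc x y]
    · intro b f hf hmono
      -- the new edge is not used
      have key : ∀ i j, H.Adj i j → f i = none → f j ≠ some kk := by
        intro i j hij hi hj
        obtain ⟨j', hj', hne⟩ := hH.nbr2 i j
        have h1 := (hmono i j hij).2
        have h2 := hmono i j' hj'
        rw [hi] at h2
        obtain ⟨l, hl, hfl⟩ := SG_none h2.1
        have hlk : l ≠ kk := by
          intro h
          apply hne
          apply hf
          rw [hfl, hj, h]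
        have hlk' : Tk k l := by
          have h3 : l.1 ≠ k := fun h => hlk (Fin.ext h)
          have h4 := hl.1
          exact ⟨by omega, hl.2⟩
        have e1 : c' (f i) (f j) = false := by
          have : E (f i) (f j) := Or.inl ⟨hi, hj⟩
          simp only [c', if_pos this]
        have e2 : c' none (f j') = true := by
          have : ¬ E none (f j') := by
            rintro (⟨_, h⟩ | ⟨h, _⟩)
            · rw [hfl] at h
              exact hlk (Option.some_injective _ h)
            · exact absurd h (by simp)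
          simp only [c', if_neg this]
          rw [hfl]
          exact ht l hlk'
        rw [e1] at h1
        rw [e2] at h2
        exact absurd (h1.trans h2.2.symm) (by decide)
      refine hg b f hf (fun i j hij => ?_)
      obtain ⟨h1, h2⟩ := hmono i j hij
      have hEn : ¬ E (f i) (f j) := by
        rintro (⟨h3, h4⟩ | ⟨h3, h4⟩)
        · exact key i j hij h3 h4
        · exact key j i hij.symm h4 h3
      have e : c' (f i) (f j) = c (f i) (f j) := by simp only [c', if_neg hEn]
      rw [e] at h2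
      refine ⟨?_, h2⟩
      rcases h1 with h1 | ⟨l, hl, h1⟩
      · exact Or.inl h1
      · refine Or.inr ⟨l, ?_, h1⟩
        have h3 : l.1 ≠ k := by
          intro h
          have hl' : l = kk := Fin.ext h
          rw [hl'] at h1
          exact hEn h1
        have h4 := hl.1
        exact ⟨by omega, hl.2⟩
  · intro b
    rcases b with _ | _
    · rintro ⟨c, hc, hg, ht⟩
      apply hconst
      exact ⟨fun x y => !c x y, fun x y => congrArg (fun b => !b) (hc x y), hg.not,
        fun t => congrArg (fun b => !b) (ht t)⟩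
    · exact hconst

theorem srho_comp {n : ℕ} (H : SimpleGraph (Fin n)) {N : ℕ} (B : SimpleGraph (Fin N))
    (Tp : Fin N → Prop) (q : {i : Fin N // Tp i} → Bool) (h : srho H B Tp q) :
    srho H B Tp (fun t => !q t) := by
  obtain ⟨c, hc, hg, ht⟩ := h
  exact ⟨fun x y => !c x y, fun x y => congrArg (fun b => !b) (hc x y), hg.not,
    fun t => congrArg (fun b => !b) (ht t)⟩

end Pool.Agent.Lib.MP_3240be_co.H82
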