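import Mathlib
import Pool.Agent.Lib.MP_3240be_co.H82.Star

set_option autoImplicit false

/-!
# Senders between two edges at a common vertex
-/

namespace Pool.Agent.Lib.MP_3240be_co.H82

open Pool.Agent.Lib.MP_3240be_co.H36.Chrom

section Pieces

variable {V M : Type} {N : ℕ} {B : SimpleGraph (Fin N)} {Tp : Fin N → Prop}
  (δ : M → {i : Fin N // Tp i} → V)

open Classical in
/-- The embedding of the piece `m`: the apex, the points of the hyperedge `m`, private points. -/
noncomputable def emb (m : M) (x : Option (Fin N)) : Option V ⊕ (M × Fin N) :=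
  match x with
  | none => Sum.inl none
  | some i => if h : Tp i then Sum.inl (some (δ m ⟨i, h⟩)) else Sum.inr (m, i)

theorem emb_none (m : M) : emb δ m none = Sum.inl none := rfl

theorem emb_pos (m : M) (t : {i : Fin N // Tp i}) :
    emb δ m (some t.1) = Sum.inl (some (δ m t)) := by
  simp only [emb, dif_pos t.2]

theorem emb_neg (m : M) (i : Fin N) (h : ¬ Tp i) : emb δ m (some i) = Sum.inr (m, i) := by
  simp only [emb, dif_neg h]

theorem emb_inj (hδ : ∀ m, Function.Injective (δ m)) (m : M) : Function.Injective (emb δ m) := by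
  rintro (_ | i) (_ | j) h
  · rfl
  · by_cases hj : Tp j
    · rw [emb_none, emb_pos δ m ⟨j, hj⟩] at h
      simp at h
    · rw [emb_none, emb_neg δ m j hj] at h
      simp at h
  · by_cases hi : Tp i
    · rw [emb_none, emb_pos δ m ⟨i, hi⟩] at h
      simp at h
    · rw [emb_none, emb_neg δ m i hi] at h
      simp at h
  · by_cases hi : Tp i
    · by_cases hj : Tp j
      · rw [emb_pos δ m ⟨i, hi⟩, emb_pos δ m ⟨j, hj⟩] at h
        have h' : i = j :=
          congrArg Subtype.val (hδ m (Option.some_injective _ (Sum.inl_injective h)))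
        rw [h']
      · rw [emb_pos δ m ⟨i, hi⟩, emb_neg δ m j hj] at h
        simp at h
    · by_cases hj : Tp j
      · rw [emb_neg δ m i hi, emb_pos δ m ⟨j, hj⟩] at h
        simp at h
      · rw [emb_neg δ m i hi, emb_neg δ m j hj] at h
        have h' : i = j := (Prod.ext_iff.1 (Sum.inr_injective h)).2
        rw [h']

/-- Common vertices of two different pieces. -/
theorem emb_common {m m' : M} (hmm : m ≠ m') {u u' : Option (Fin N)}
    (h : emb δ m u = emb δ m' u') : (u = none ∧ u' = none) ∨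
      ∃ t t' : {i : Fin N // Tp i}, u = some t.1 ∧ u' = some t'.1 ∧ δ m t = δ m' t' := by
  rcases u with _ | i <;> rcases u' with _ | j
  · exact Or.inl ⟨rfl, rfl⟩
  · by_cases hj : Tp j
    · rw [emb_none, emb_pos δ m' ⟨j, hj⟩] at h
      simp at h
    · rw [emb_none, emb_neg δ m' j hj] at h
      simp at h
  · by_cases hi : Tp i
    · rw [emb_none, emb_pos δ m ⟨i, hi⟩] at h
      simp at h
    · rw [emb_none, emb_neg δ m i hi] at h
      simp at h
  · by_cases hi : Tp i
    · by_cases hj : Tp j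
      · rw [emb_pos δ m ⟨i, hi⟩, emb_pos δ m' ⟨j, hj⟩] at h
        exact Or.inr ⟨⟨i, hi⟩, ⟨j, hj⟩, rfl, rfl, Option.some_injective _ (Sum.inl_injective h)⟩
      · rw [emb_pos δ m ⟨i, hi⟩, emb_neg δ m' j hj] at h
        simp at h
    · by_cases hj : Tp j
      · rw [emb_neg δ m i hi, emb_pos δ m' ⟨j, hj⟩] at h
        simp at h
      · rw [emb_neg δ m i hi, emb_neg δ m' j hj] at h
        exact absurd (Prod.ext_iff.1 (Sum.inr_injective h)).1 hmm

/-- The star structure. -/
noncomputable def StarG (B : SimpleGraph (Fin N)) (hδ : ∀ m, Function.Injective (δ m)) :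
    SimpleGraph (Option V ⊕ (M × Fin N)) :=
  Un (J := M) (U := fun _ => Option (Fin N)) (fun _ => SG B Tp) (emb δ) (emb_inj δ hδ)

variable (hδ : ∀ m, Function.Injective (δ m))

/-- The pieces are induced. -/
theorem star_ind (hlin : Linear δ) (m : M) (u v : Option (Fin N))
    (h : (StarG δ B hδ).Adj (emb δ m u) (emb δ m v)) : (SG B Tp).Adj u v := by
  obtain ⟨m', u', v', hadj, hu, hv⟩ := h
  by_cases hmm : m' = m
  · subst hmm
    rw [← emb_inj δ hδ m' hu, ← emb_inj δ hδ m' hv]
    exact hadj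
  · rcases emb_common δ hmm hu with ⟨h1, h2⟩ | ⟨t, t', h1, h2, h3⟩
    · rcases emb_common δ hmm hv with ⟨h4, h5⟩ | ⟨s, s', h4, h5, h6⟩
      · rw [h1, h4] at hadj
        exact absurd rfl hadj.ne
      · rw [h2, h5]
        exact SG_none_some.2 s'.2
    · rcases emb_common δ hmm hv with ⟨h4, h5⟩ | ⟨s, s', h4, h5, h6⟩
      · rw [h2, h5]
        exact (SG_none_some.2 t'.2).symm
      · exfalso
        have := hlin m' m hmm t t' s s' h3 h6
        rw [h1, h4, this] at hadj
        exact absurd rfl hadj.ne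

/-- A proper 2-colouring of the star structure. -/
theorem star_bip (cl : Fin N → Bool) (hcl : ∀ i j, B.Adj i j → cl i ≠ cl j)
    (hT : ∀ i, Tp i → cl i = true) :
    ∃ CL : Option V ⊕ (M × Fin N) → Bool, (∀ x y, (StarG δ B hδ).Adj x y → CL x ≠ CL y) ∧
      CL (Sum.inl none) = false ∧ ∀ v, CL (Sum.inl (some v)) = true := by
  let CL : Option V ⊕ (M × Fin N) → Bool := fun x => match x with
    | Sum.inl none => false
    | Sum.inl (some _) => true
    | Sum.inr (_, i) => cl i
  have h1 : ∀ m i, CL (emb δ m (some i)) = cl i := by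
    intro m i
    by_cases hi : Tp i
    · rw [emb_pos δ m ⟨i, hi⟩, hT i hi]
    · rw [emb_neg δ m i hi]
  have h2 : ∀ m, CL (emb δ m none) = false := fun m => rfl
  refine ⟨CL, ?_, rfl, fun v => rfl⟩
  rintro _ _ ⟨m, u, v, huv, rfl, rfl⟩
  rcases huv with ⟨i, j, rfl, rfl, hij⟩ | ⟨i, hi, ⟨rfl, rfl⟩ | ⟨rfl, rfl⟩⟩
  · rw [h1, h1]
    exact hcl i j hij
  · rw [h1, h2, hT i hi]
    decide
  · rw [h1, h2, hT i hi]
    decide

/-- A copy of `H` lies in one piece. -/
theorem one_piece {p : Prop} {n : ℕ} {H : SimpleGraph (Fin n)} (hH : TC p H)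
    (hcl : p → ∃ cl : Fin N → Bool, (∀ i j, B.Adj i j → cl i ≠ cl j) ∧ ∀ i, Tp i → cl i = true)
    (hsp : Sparse1 (n * n) δ)
    (f : Fin n → Option V ⊕ (M × Fin N)) (hf : Function.Injective f)
    (hadj : ∀ i j, H.Adj i j → (StarG δ B hδ).Adj (f i) (f j)) :
    ∃ m, ∀ i, ∃ u, emb δ m u = f i := by
  classical
  let In : M → Fin n → Prop := fun m q => ∃ u, emb δ m u = f q
  let ap : Fin n → Prop := fun q => f q = Sum.inl none
  have hap : ∀ p q, ap p → ap q → p = q := fun p q hp hq => hf (hp.trans hq.symm)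
  have hpc : ∀ p q, H.Adj p q → ∃ m, In m p ∧ In m q := by
    intro p q hpq
    obtain ⟨m, u, v, _, hu, hv⟩ := hadj p q hpq
    exact ⟨m, ⟨u, hu⟩, ⟨v, hv⟩⟩
  -- every vertex has a neighbour that is not the apex
  have hnb : ∀ p, ∃ q, H.Adj p q ∧ ¬ ap q := by
    intro p
    by_cases hz : ∃ z, ap z
    · obtain ⟨z, hz⟩ := hz
      obtain ⟨q, hq, hqz⟩ := hH.nbr2 p z
      exact ⟨q, hq, fun h => hqz (hap _ _ h hz)⟩
    · push Not at hz
      obtain ⟨q, hq⟩ := hH.nbr p
      exact ⟨q, hq, hz q⟩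
  obtain ⟨x0, hx0⟩ : ∃ x0, ¬ ap x0 := by
    obtain ⟨x⟩ := hH.ne
    obtain ⟨y, _, hy⟩ := hnb x
    exact ⟨y, hy⟩
  obtain ⟨y0, hxy0, hy0⟩ := hnb x0
  obtain ⟨m00, _⟩ := hpc x0 y0 hxy0
  have hpc' : ∀ p q, ∃ m, H.Adj p q → In m p ∧ In m q := by
    intro p q
    by_cases hpq : H.Adj p q
    · obtain ⟨m, hm⟩ := hpc p q hpq
      exact ⟨m, fun _ => hm⟩
    · exact ⟨m00, fun h => absurd h hpq⟩
  choose mm hmm using hpc'
  let S : Finset M := ((Finset.univ : Finset (Fin n × Fin n)).filter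
    (fun p => H.Adj p.1 p.2 ∧ ¬ ap p.1 ∧ ¬ ap p.2)).image (fun p => mm p.1 p.2)
  have hS : ∀ p q, H.Adj p q → ¬ ap p → ¬ ap q → mm p q ∈ S := fun p q hpq h1 h2 =>
    Finset.mem_image.2 ⟨(p, q), Finset.mem_filter.2 ⟨Finset.mem_univ _, hpq, h1, h2⟩, rfl⟩
  have hS' : ∀ m ∈ S, ∃ p q, H.Adj p q ∧ ¬ ap p ∧ ¬ ap q ∧ In m p ∧ In m q := by
    intro m hm
    obtain ⟨⟨p, q⟩, hpq, rfl⟩ := Finset.mem_image.1 hm
    obtain ⟨h1, h2, h3⟩ := (Finset.mem_filter.1 hpq).2
    exact ⟨p, q, h1, h2, h3, hmm p q h1⟩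
  have hScard : S.card ≤ n * n := by
    refine Finset.card_image_le.trans ((Finset.card_filter_le _ _).trans ?_)
    rw [Finset.card_univ, Fintype.card_prod, Fintype.card_fin]
  by_cases hS2 : 2 ≤ S.card
  · exfalso
    obtain ⟨m, hm, hleaf⟩ := hsp S hS2 hScard
    let Jp : Fin n → Prop := fun p => In m p ∧ ¬ ap p ∧ ∃ m' ∈ S, m' ≠ m ∧ In m' p
    have hcommon : ∀ m' p, m' ≠ m → In m p → In m' p → ¬ ap p → ∃ t t', δ m t = δ m' t' ∧
        f p = Sum.inl (some (δ m t)) := by
      rintro m' p hne ⟨u, hu⟩ ⟨u', hu'⟩ hnp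
      rcases emb_common δ (Ne.symm hne) (hu.trans hu'.symm) with ⟨h1, _⟩ | ⟨t, t', h1, _, h3⟩
      · exfalso
        apply hnp
        show f p = Sum.inl none
        rw [← hu, h1, emb_none]
      · exact ⟨t, t', h3, by rw [← hu, h1, emb_pos]⟩
    have hJ : ∀ p q, Jp p → Jp q → p = q := by
      rintro p q ⟨hp, hp', m', hm', hne', hpm'⟩ ⟨hq, hq', m'', hm'', hne'', hqm''⟩
      obtain ⟨t, t', h1, h2⟩ := hcommon m' p hne' hp hpm' hp'
      obtain ⟨s, s', h3, h4⟩ := hcommon m'' q hne'' hq hqm'' hq'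
      have := hleaf m' hm' m'' hm'' hne' hne'' t t' s s' h1 h3
      apply hf
      rw [h2, h4, this]
    have hconn := hH.sep ap Jp hap hJ (fun hp => by
      obtain ⟨cl, hc1, hc2⟩ := hcl hp
      obtain ⟨CL, hC1, hC2, hC3⟩ := star_bip δ hδ cl hc1 hc2
      refine ⟨fun x => CL (f x), fun x y hxy => hC1 _ _ (hadj x y hxy), ?_⟩
      rintro x y hx ⟨hy1, hy2, m', _, hne', hy3⟩
      obtain ⟨t, _, _, hft⟩ := hcommon m' y hne' hy1 hy3 hy2
      show CL (f x) ≠ CL (f y)
      have hx' : f x = Sum.inl none := hx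
      rw [hx', hft, hC2, hC3]
      decide)
    obtain ⟨p1, q1, hpq1, hp1, hq1, hi1, hi2⟩ := hS' m hm
    have hall := hconn (fun p => In m p) (by
      by_cases h1 : Jp p1
      · exact ⟨q1, hq1, fun h2 => hpq1.ne (hJ _ _ h1 h2), hi2⟩
      · exact ⟨p1, hp1, h1, hi1⟩) (by
      intro p q hp hJp hq hJq hpq hin
      by_cases h1 : mm p q = m
      · have := (hmm p q hpq).2
        rwa [h1] at this
      · exact absurd ⟨hin, hp, mm p q, hS p q hpq hp hq, h1, (hmm p q hpq).1⟩ hJp)
    obtain ⟨m', hm', hne'⟩ : ∃ m' ∈ S, m' ≠ m := by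
      by_contra hcon
      push Not at hcon
      have : S ⊆ {m} := fun k hk => Finset.mem_singleton.2 (hcon k hk)
      have := Finset.card_le_card this
      rw [Finset.card_singleton] at this
      omega
    obtain ⟨p2, q2, hpq2, hp2, hq2, hi3, hi4⟩ := hS' m' hm'
    have hJ2 : ∀ p, ¬ ap p → In m' p → Jp p := by
      intro p hp hin
      by_contra hc
      exact hc ⟨hall p hp hc, hp, m', hm', hne', hin⟩
    exact hpq2.ne (hJ _ _ (hJ2 _ hp2 hi3) (hJ2 _ hq2 hi4))
  · have hone : ∀ p q, H.Adj p q → ¬ ap p → ¬ ap q → mm p q = mm x0 y0 := by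
      intro p q hpq hp hq
      by_contra hne
      exact hS2 (Finset.one_lt_card.2 ⟨_, hS p q hpq hp hq, _, hS x0 y0 hxy0 hx0 hy0, hne⟩)
    refine ⟨mm x0 y0, fun i => ?_⟩
    by_cases hi : ap i
    · exact ⟨none, by rw [emb_none]; exact hi.symm⟩
    · obtain ⟨j, hij, hj⟩ := hnb i
      have := (hmm i j hij).1
      rw [hone i j hij hi hj] at this
      exact this

end Pieces

/-- Two edges `xa`, `xb` at a common vertex that have the same colour in every good colouring
(`σ = true`) or different colours in every good colouring (`σ = false`).  If `p` holds then the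
graph is bipartite. -/
def AdjSender (p : Prop) {n : ℕ} (H : SimpleGraph (Fin n)) (σ : Bool) : Prop :=
  ∃ (W : Type) (_ : Finite W) (G : SimpleGraph W) (x a b : W), a ≠ b ∧ G.Adj x a ∧ G.Adj x b ∧
    (p → ∃ cl : W → Bool, ∀ x y, G.Adj x y → cl x ≠ cl y) ∧
    (∃ c : W → W → Bool, (∀ x y, c x y = c y x) ∧ Good H G c) ∧
    ∀ c : W → W → Bool, (∀ x y, c x y = c y x) → Good H G c → (c x a = c x b ↔ σ = true)

theorem exists_adj {p : Prop} {n : ℕ} (H : SimpleGraph (Fin n)) (hH : TC p H) :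
    ∃ σ, AdjSender p H σ := by
  classical
  obtain ⟨N, B, Tp, hcl, hne, hconst⟩ := exists_srho H hH
  obtain ⟨V, M, hV, hM, δ, a, b, σ, hδ, hsp, hlin, hab, ⟨s, hs⟩, hforce⟩ :=
    forced (srho H B Tp) (srho_comp H B Tp) hne hconst (n * n)
  -- the two points lie in hyperedges
  have hcov : ∀ y z : V, y ≠ z → (∀ s : V → Bool, (∀ m, srho H B Tp (fun t => s (δ m t))) →
      (s y = s z ↔ σ = true)) → ∃ m t, δ m t = y := by
    intro y z hyz hf
    by_contra hcon
    push Not at hcon
    have h1 := hf s hs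
    let s' : V → Bool := fun v => if v = y then !s v else s v
    have h2 := hf s' (fun m => by
      have e : (fun t => s' (δ m t)) = fun t => s (δ m t) := by
        funext t
        simp only [s', if_neg (hcon m t)]
      rw [e]
      exact hs m)
    have e1 : s' y = !s y := by simp only [s', if_true]
    have e2 : s' z = s z := by simp only [s', if_neg hyz.symm]
    rw [e1, e2, ← h1] at h2
    revert h2
    cases s y <;> cases s z <;> decide
  obtain ⟨ma, ta, hma⟩ := hcov a b hab hforce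
  obtain ⟨mb, tb, hmb⟩ := hcov b a hab.symm (fun s hs => by rw [← hforce s hs]; exact eq_comm)
  refine ⟨σ, Option V ⊕ (M × Fin N), inferInstance, StarG δ B hδ, Sum.inl none,
    Sum.inl (some a), Sum.inl (some b), ?_, ?_, ?_, ?_, ?_, ?_⟩
  · intro h
    exact hab (Option.some_injective _ (Sum.inl_injective h))
  · exact ⟨ma, none, some ta.1, SG_none_some.2 ta.2, rfl, by rw [emb_pos, hma]⟩
  · exact ⟨mb, none, some tb.1, SG_none_some.2 tb.2, rfl, by rw [emb_pos, hmb]⟩
  · intro hp
    obtain ⟨cl, hc1, hc2⟩ := hcl hp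
    obtain ⟨CL, hC1, _⟩ := star_bip δ hδ cl hc1 hc2
    exact ⟨CL, hC1⟩
  · choose c hc hg ht using hs
    obtain ⟨C, hC1, hC2⟩ := exists_colouring (J := M) (U := fun _ => Option (Fin N))
      (fun _ => SG B Tp) (emb δ) c (fun j => hc j) (by
        intro m m' u v u' v' h1 h2 h3 h4
        by_cases hmm : m = m'
        · subst hmm
          rw [emb_inj δ hδ m h3, emb_inj δ hδ m h4]
        · rcases emb_common δ hmm h3 with ⟨e1, e2⟩ | ⟨t, t', e1, e2, e3⟩
          · rcases emb_common δ hmm h4 with ⟨e4, e5⟩ | ⟨r, r', e4, e5, e6⟩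
            · rw [e1, e4] at h1
              exact absurd rfl h1.ne
            · rw [e1, e2, e4, e5, ht, ht]
              show s (δ m r) = s (δ m' r')
              rw [e6]
          · rcases emb_common δ hmm h4 with ⟨e4, e5⟩ | ⟨r, r', e4, e5, e6⟩
            · rw [e1, e2, e4, e5, hc, hc m', ht, ht]
              show s (δ m t) = s (δ m' t')
              rw [e3]
            · exfalso
              have := hlin m m' hmm t t' r r' e3 e6
              rw [e1, e4, this] at h1
              exact absurd rfl h1.ne)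
    refine ⟨C, hC1, ?_⟩
    intro β f hf hmono
    obtain ⟨m, hm⟩ := one_piece δ hδ hH hcl hsp f hf (fun i j hij => (hmono i j hij).1)
    exact piece_copy (star_ind δ hδ hlin m) (fun u v h => hC2 m u v h) (hg m) β f hf hm hmono
  · intro C hC hg
    have h := hforce (fun v => C (Sum.inl none) (Sum.inl (some v))) (fun m => by
      refine ⟨fun x y => C (emb δ m x) (emb δ m y), fun x y => hC _ _, ?_, fun t => ?_⟩
      · exact hg.comap (emb δ m) (emb_inj δ hδ m) (fun u v h => ⟨m, u, v, h, rfl, rfl⟩)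
      · simp only [emb_none, emb_pos])
    exact h

end Pool.Agent.Lib.MP_3240be_co.H82
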