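import Mathlib
import Pool.Agent.Lib.MP_3240be_co.H82.Adj

set_option autoImplicit false

/-!
# Attaching copies of a graph at terminals
-/

namespace Pool.Agent.Lib.MP_3240be_co.H82

section Att

variable {W U J : Type}

open Classical in
/-- The embedding of the piece `j`: terminals go to the base, other vertices are private. -/
noncomputable def ia (T : U → Prop) (t : J → U → W) (j : J) (u : U) : W ⊕ (J × U) :=
  if T u then Sum.inl (t j u) else Sum.inr (j, u)

variable {T : U → Prop} {t : J → U → W}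

theorem ia_pos {j : J} {u : U} (h : T u) : ia T t j u = Sum.inl (t j u) := if_pos h

theorem ia_neg {j : J} {u : U} (h : ¬ T u) : ia T t j u = Sum.inr (j, u) := if_neg h

theorem ia_eq_inl {j : J} {u : U} {x : W} (h : ia T t j u = Sum.inl x) : T u ∧ t j u = x := by
  by_cases hu : T u
  · rw [ia_pos hu] at h
    exact ⟨hu, Sum.inl_injective h⟩
  · rw [ia_neg hu] at h
    simp at h

theorem ia_eq_inr {j j' : J} {u u' : U} (h : ia T t j u = Sum.inr (j', u')) :
    j = j' ∧ u = u' ∧ ¬ T u := by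
  by_cases hu : T u
  · rw [ia_pos hu] at h
    simp at h
  · rw [ia_neg hu] at h
    have h' := Prod.ext_iff.1 (Sum.inr_injective h)
    exact ⟨h'.1, h'.2, hu⟩

theorem ia_inj (ht : ∀ j u v, T u → T v → t j u = t j v → u = v) (j : J) :
    Function.Injective (ia T t j) := by
  intro u v h
  by_cases hv : T v
  · rw [ia_pos hv] at h
    obtain ⟨h1, h2⟩ := ia_eq_inl h
    exact ht j u v h1 hv h2
  · rw [ia_neg hv] at h
    exact (ia_eq_inr h).2.1

theorem ia_common {j j' : J} {u u' : U} (hne : j ≠ j') (h : ia T t j u = ia T t j' u') :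
    T u ∧ T u' ∧ t j u = t j' u' := by
  by_cases hv : T u'
  · rw [ia_pos hv] at h
    obtain ⟨h1, h2⟩ := ia_eq_inl h
    exact ⟨h1, hv, h2⟩
  · rw [ia_neg hv] at h
    exact absurd (ia_eq_inr h).1 hne

/-- The graph obtained from `G` by attaching a copy of `S` for every `j`. -/
def Att (G : SimpleGraph W) (S : SimpleGraph U) (T : U → Prop) (t : J → U → W)
    (ht : ∀ j u v, T u → T v → t j u = t j v → u = v) : SimpleGraph (W ⊕ (J × U)) where
  Adj x y := (∃ u v, G.Adj u v ∧ Sum.inl u = x ∧ Sum.inl v = y) ∨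
    (∃ j u v, S.Adj u v ∧ ia T t j u = x ∧ ia T t j v = y)
  symm := ⟨by
    rintro _ _ (⟨u, v, h, h1, h2⟩ | ⟨j, u, v, h, h1, h2⟩)
    · exact Or.inl ⟨v, u, h.symm, h2, h1⟩
    · exact Or.inr ⟨j, v, u, h.symm, h2, h1⟩⟩
  loopless := ⟨by
    rintro _ (⟨u, v, h, h1, h2⟩ | ⟨j, u, v, h, h1, h2⟩)
    · exact h.ne (Sum.inl_injective (h1.trans h2.symm))
    · exact h.ne (ia_inj ht j (h1.trans h2.symm))⟩

variable {G : SimpleGraph W} {S : SimpleGraph U}
  (ht : ∀ j u v, T u → T v → t j u = t j v → u = v)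

theorem Att_base {u v : W} (h : G.Adj u v) : (Att G S T t ht).Adj (Sum.inl u) (Sum.inl v) :=
  Or.inl ⟨u, v, h, rfl, rfl⟩

theorem Att_piece {j : J} {u v : U} (h : S.Adj u v) :
    (Att G S T t ht).Adj (ia T t j u) (ia T t j v) :=
  Or.inr ⟨j, u, v, h, rfl, rfl⟩

theorem Att_base_ind (hG : ∀ j u v, T u → T v → (S.Adj u v ↔ G.Adj (t j u) (t j v))) {u v : W}
    (h : (Att G S T t ht).Adj (Sum.inl u) (Sum.inl v)) : G.Adj u v := by
  rcases h with ⟨u', v', h, h1, h2⟩ | ⟨j, u', v', h, h1, h2⟩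
  · rw [← Sum.inl_injective h1, ← Sum.inl_injective h2]
    exact h
  · obtain ⟨h3, h4⟩ := ia_eq_inl h1
    obtain ⟨h5, h6⟩ := ia_eq_inl h2
    rw [← h4, ← h6]
    exact (hG j u' v' h3 h5).1 h

theorem Att_piece_ind (hG : ∀ j u v, T u → T v → (S.Adj u v ↔ G.Adj (t j u) (t j v))) {j : J}
    {u v : U} (h : (Att G S T t ht).Adj (ia T t j u) (ia T t j v)) : S.Adj u v := by
  rcases h with ⟨u', v', h, h1, h2⟩ | ⟨j', u', v', h, h1, h2⟩
  · obtain ⟨h3, h4⟩ := ia_eq_inl h1.symm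
    obtain ⟨h5, h6⟩ := ia_eq_inl h2.symm
    rw [← h4, ← h6] at h
    exact (hG j u v h3 h5).2 h
  · by_cases hj : j' = j
    · subst hj
      rw [← ia_inj ht j' h1, ← ia_inj ht j' h2]
      exact h
    · obtain ⟨h3, h4, h5⟩ := ia_common hj h1
      obtain ⟨h6, h7, h8⟩ := ia_common hj h2
      have := (hG j' u' v' h3 h6).1 h
      rw [h5, h8] at this
      exact (hG j u v h4 h7).2 this

/-- Neighbours of a private vertex. -/
theorem Att_private {j : J} {u : U} {y : W ⊕ (J × U)}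
    (h : (Att G S T t ht).Adj (Sum.inr (j, u)) y) : ∃ v, S.Adj u v ∧ y = ia T t j v := by
  rcases h with ⟨u', v', h, h1, h2⟩ | ⟨j', u', v', h, h1, h2⟩
  · simp at h1
  · obtain ⟨rfl, rfl, _⟩ := ia_eq_inr h1
    exact ⟨v', h, h2.symm⟩

theorem Att_base_nbr {u : W} {j : J} {v : U}
    (h : (Att G S T t ht).Adj (Sum.inl u) (Sum.inr (j, v))) : ∃ w, T w ∧ t j w = u := by
  obtain ⟨w, _, hw⟩ := Att_private ht h.symm
  exact ⟨w, ia_eq_inl hw.symm⟩

/-- A private vertex that has a neighbour is not a terminal. -/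
theorem Att_private_not {j : J} {u : U} {y : W ⊕ (J × U)}
    (h : (Att G S T t ht).Adj (Sum.inr (j, u)) y) : ¬ T u := by
  rcases h with ⟨u', v', h, h1, h2⟩ | ⟨j', u', v', h, h1, h2⟩
  · simp at h1
  · obtain ⟨_, rfl, h3⟩ := ia_eq_inr h1
    exact h3

/-- A proper 2-colouring of the graph with the attached copies. -/
theorem Att_bip (cl₀ : W → Bool) (h0 : ∀ x y, G.Adj x y → cl₀ x ≠ cl₀ y) (cl₁ : U → Bool)
    (h1 : ∀ x y, S.Adj x y → cl₁ x ≠ cl₁ y) (s : J → Bool)
    (hs : ∀ j u, T u → cl₀ (t j u) = xor (cl₁ u) (s j)) :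
    ∃ cl : W ⊕ (J × U) → Bool, (∀ x y, (Att G S T t ht).Adj x y → cl x ≠ cl y) ∧
      ∀ w, cl (Sum.inl w) = cl₀ w := by
  let cl : W ⊕ (J × U) → Bool := Sum.elim cl₀ (fun q => xor (cl₁ q.2) (s q.1))
  have h2 : ∀ j u, cl (ia T t j u) = xor (cl₁ u) (s j) := by
    intro j u
    by_cases hu : T u
    · rw [ia_pos hu]
      exact hs j u hu
    · rw [ia_neg hu]
      rfl
  refine ⟨cl, ?_, fun w => rfl⟩
  rintro _ _ (⟨u, v, h, rfl, rfl⟩ | ⟨j, u, v, h, rfl, rfl⟩)
  · exact h0 u v h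
  · rw [h2, h2]
    have h3 := h1 u v h
    revert h3
    cases cl₁ u <;> cases cl₁ v <;> cases s j <;> decide

include ht in
/-- Colourings of the base and of the pieces that agree on the terminals. -/
theorem Att_colour (c : W → W → Bool) (hc : ∀ x y, c x y = c y x) (d : J → U → U → Bool)
    (hd : ∀ j x y, d j x y = d j y x)
    (hcd : ∀ j u v, T u → T v → S.Adj u v → d j u v = c (t j u) (t j v)) :
    ∃ C : W ⊕ (J × U) → W ⊕ (J × U) → Bool, (∀ x y, C x y = C y x) ∧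
      (∀ u v, C (Sum.inl u) (Sum.inl v) = c u v) ∧
      ∀ j u v, S.Adj u v → C (ia T t j u) (ia T t j v) = d j u v := by
  classical
  let P : W ⊕ (J × U) → W ⊕ (J × U) → Bool → Prop := fun x y b =>
    (∃ u v, Sum.inl u = x ∧ Sum.inl v = y ∧ c u v = b) ∨
    (∃ j u v, S.Adj u v ∧ ia T t j u = x ∧ ia T t j v = y ∧ d j u v = b)
  have hsym : ∀ x y b, P x y b → P y x b := by
    rintro x y b (⟨u, v, h1, h2, h3⟩ | ⟨j, u, v, h, h1, h2, h3⟩)
    · exact Or.inl ⟨v, u, h2, h1, by rw [hc, h3]⟩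
    · exact Or.inr ⟨j, v, u, h.symm, h2, h1, by rw [hd, h3]⟩
  have hmix : ∀ u v j u' v', S.Adj u' v' → (Sum.inl u : W ⊕ (J × U)) = ia T t j u' →
      (Sum.inl v : W ⊕ (J × U)) = ia T t j v' → c u v = d j u' v' := by
    intro u v j u' v' h h1 h2
    obtain ⟨h3, h4⟩ := ia_eq_inl h1.symm
    obtain ⟨h5, h6⟩ := ia_eq_inl h2.symm
    rw [hcd j u' v' h3 h5 h, h4, h6]
  have hfun : ∀ x y b b', P x y b → P x y b' → b = b' := by
    rintro x y b b' (⟨u, v, h1, h2, h3⟩ | ⟨j, u, v, h, h1, h2, h3⟩)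
      (⟨u', v', k1, k2, k3⟩ | ⟨j', u', v', k, k1, k2, k3⟩)
    · rw [← h3, ← k3, Sum.inl_injective (h1.trans k1.symm), Sum.inl_injective (h2.trans k2.symm)]
    · rw [← h3, ← k3]
      exact hmix u v j' u' v' k (h1.trans k1.symm) (h2.trans k2.symm)
    · rw [← h3, ← k3]
      exact (hmix u' v' j u v h (k1.trans h1.symm) (k2.trans h2.symm)).symm
    · by_cases hj : j = j'
      · subst hj
        rw [← h3, ← k3, ia_inj ht j (h1.trans k1.symm), ia_inj ht j (h2.trans k2.symm)]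
      · obtain ⟨e1, e2, e3⟩ := ia_common hj (h1.trans k1.symm)
        obtain ⟨e4, e5, e6⟩ := ia_common hj (h2.trans k2.symm)
        rw [← h3, ← k3, hcd j u v e1 e4 h, hcd j' u' v' e2 e5 k, e3, e6]
  have key : ∀ x y b, P x y b → decide (P x y true) = b := by
    intro x y b h
    cases b
    · refine decide_eq_false (fun h' => ?_)
      exact absurd (hfun x y _ _ h h') (by decide)
    · exact decide_eq_true h
  refine ⟨fun x y => decide (P x y true), fun x y => ?_, fun u v => ?_, fun j u v h => ?_⟩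
  · show decide (P x y true) = decide (P y x true)
    by_cases h : P x y true
    · rw [decide_eq_true h, decide_eq_true (hsym _ _ _ h)]
    · rw [decide_eq_false h, decide_eq_false (fun h' => h (hsym _ _ _ h'))]
  · exact key _ _ _ (Or.inl ⟨u, v, rfl, rfl, rfl⟩)
  · exact key _ _ _ (Or.inr ⟨j, u, v, h, rfl, rfl, rfl⟩)

/-- If every copy of `H` lies in the base or in a piece and the pieces have good colourings, then
monochromatic copies lie in the base. -/
theorem Att_mono {n : ℕ} {H : SimpleGraph (Fin n)} (hnb : ∀ i, ∃ j, H.Adj i j)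
    (hG : ∀ j u v, T u → T v → (S.Adj u v ↔ G.Adj (t j u) (t j v)))
    {C : W ⊕ (J × U) → W ⊕ (J × U) → Bool} {d : J → U → U → Bool}
    (hd : ∀ j, Good H S (d j))
    (hC : ∀ j u v, S.Adj u v → C (ia T t j u) (ia T t j v) = d j u v)
    (f : Fin n → W ⊕ (J × U)) (hf : Function.Injective f) (b : Bool)
    (hone : ∀ i0 j u, f i0 = Sum.inr (j, u) → ¬ T u → ∀ i, ∃ u, ia T t j u = f i)
    (hmono : ∀ i j, H.Adj i j → (Att G S T t ht).Adj (f i) (f j) ∧ C (f i) (f j) = b) :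
    ∀ i, ∃ w, f i = Sum.inl w := by
  intro i
  rcases hfi : f i with w | ⟨j, u⟩
  · exact ⟨w, rfl⟩
  · exfalso
    obtain ⟨k, hik⟩ := hnb i
    have h1 := (hmono i k hik).1
    rw [hfi] at h1
    have hT := Att_private_not ht h1
    exact piece_copy (fun u v h => Att_piece_ind ht hG h) (fun u v h => hC j u v h) (hd j) b f hf
      (hone i j u hfi hT) hmono

end Att

end Pool.Agent.Lib.MP_3240be_co.H82
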