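import Mathlib
import Pool.Agent.Lib.MP_3240be_co.H82.Att

set_option autoImplicit false

/-!
# Long senders
-/

namespace Pool.Agent.Lib.MP_3240be_co.H82

/-- A sender between the edges `e₁e₂` and `f₁f₂` with a level function.  If `p` holds then the
graph is bipartite, and `e₁`, `f₁` are in the same class if and only if `γ` is true. -/
def LS (p : Prop) {n : ℕ} (H : SimpleGraph (Fin n)) (σ γ : Bool) (α β : ℕ) : Prop :=
  ∃ (W : Type) (_ : Finite W) (G : SimpleGraph W) (e₁ e₂ f₁ f₂ : W) (ℓ : W → ℕ),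
    (∀ u v, G.Adj u v → ℓ v ≤ ℓ u + 1) ∧ G.Adj e₁ e₂ ∧ G.Adj f₁ f₂ ∧ ℓ e₁ = 0 ∧ ℓ e₂ = 0 ∧
    α ≤ ℓ f₁ ∧ β ≤ ℓ f₂ ∧
    (p → ∃ cl : W → Bool, (∀ x y, G.Adj x y → cl x ≠ cl y) ∧ (cl e₁ == cl f₁) = γ) ∧
    (∃ c : W → W → Bool, (∀ x y, c x y = c y x) ∧ Good H G c) ∧
    ∀ c : W → W → Bool, (∀ x y, c x y = c y x) → Good H G c → (c e₁ e₂ = c f₁ f₂ ↔ σ = true)

theorem LS_zero {p : Prop} {n : ℕ} (H : SimpleGraph (Fin n)) (hH : TC p H) :
    LS p H true true 0 0 := by
  refine ⟨Bool, inferInstance, ⊤, false, true, false, true, fun _ => 0,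
    fun _ _ _ => Nat.zero_le _,
    by simp, by simp, rfl, rfl, le_rfl, le_rfl,
    fun _ => ⟨id, fun x y h => h, rfl⟩, ⟨fun _ _ => true, fun _ _ => rfl, ?_⟩,
    fun c _ _ => by simp⟩
  intro b f hf _
  obtain ⟨x⟩ := hH.ne
  obtain ⟨y, hyx, _⟩ := hH.third x x
  obtain ⟨z, hzx, hzy⟩ := hH.third x y
  have h1 : f y ≠ f x := fun h => hyx (hf h)
  have h2 : f z ≠ f x := fun h => hzx (hf h)
  have h3 : f z ≠ f y := fun h => hzy (hf h)
  revert h1 h2 h3
  cases f x <;> cases f y <;> cases f z <;> simp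

theorem LS_succ {p : Prop} {n : ℕ} (H : SimpleGraph (Fin n)) (hH : TC p H) {σ τ γ : Bool}
    {α β : ℕ} (h1 : LS p H σ γ α β) (h2 : AdjSender p H τ) :
    LS p H (σ == τ) (!γ) β (min α β + 1) := by
  classical
  obtain ⟨W, hW, G, e₁, e₂, f₁, f₂, ℓ, hℓ, he, hf, hℓ1, hℓ2, hℓ3, hℓ4, hb₀, ⟨c, hc, hcg⟩,
    hforce⟩ := h1
  obtain ⟨U, hU, S, x, a, b, hab, hxa, hxb, hb₁, ⟨d, hd, hdg⟩, hforce2⟩ := h2
  let T : U → Prop := fun u => u = x ∨ u = a
  obtain ⟨t, htx, hta⟩ : ∃ t : Unit → U → W, (∀ j, t j x = f₂) ∧ ∀ j, t j a = f₁ :=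
    ⟨fun _ u => if u = x then f₂ else f₁, fun j => if_pos rfl, fun j => if_neg hxa.ne.symm⟩
  have ht : ∀ j u v, T u → T v → t j u = t j v → u = v := by
    rintro j u v (rfl | rfl) (rfl | rfl) h
    · rfl
    · rw [htx, hta] at h
      exact absurd h.symm hf.ne
    · rw [htx, hta] at h
      exact absurd h hf.ne
    · rfl
  have hG : ∀ j u v, T u → T v → (S.Adj u v ↔ G.Adj (t j u) (t j v)) := by
    rintro j u v (rfl | rfl) (rfl | rfl)
    · exact ⟨fun h => absurd rfl h.ne, fun h => absurd rfl h.ne⟩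
    · rw [htx, hta]
      exact ⟨fun _ => hf.symm, fun _ => hxa⟩
    · rw [htx, hta]
      exact ⟨fun _ => hf, fun _ => hxa.symm⟩
    · exact ⟨fun h => absurd rfl h.ne, fun h => absurd rfl h.ne⟩
  have hTx : T x := Or.inl rfl
  have hTa : T a := Or.inr rfl
  have hTb : ¬ T b := by
    rintro (h | h)
    · exact hxb.ne h.symm
    · exact hab h.symm
  have hbip : p → ∃ cl : W ⊕ (Unit × U) → Bool,
      (∀ x y, (Att G S T t ht).Adj x y → cl x ≠ cl y) ∧
      (cl (Sum.inl e₁) == cl (Sum.inl f₁)) = γ := by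
    intro hp
    obtain ⟨cl₀, h1, h2⟩ := hb₀ hp
    obtain ⟨cl₁, h3⟩ := hb₁ hp
    obtain ⟨cl, h4, h5⟩ := Att_bip (G := G) (S := S) (T := T) (t := t) ht cl₀ h1 cl₁ h3
      (fun _ => xor (cl₁ x) (cl₀ f₂)) (by
        have h6 := h1 _ _ hf
        have h7 := h3 _ _ hxa
        rintro j u (rfl | rfl)
        · rw [htx]
          cases cl₁ u <;> cases cl₀ f₂ <;> rfl
        · rw [hta]
          revert h6 h7
          cases cl₁ x <;> cases cl₁ u <;> cases cl₀ f₁ <;> cases cl₀ f₂ <;> decide)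
    exact ⟨cl, h4, by rw [h5, h5, h2]⟩
  let m := min (ℓ f₁) (ℓ f₂)
  let L : W ⊕ (Unit × U) → ℕ := Sum.elim ℓ (fun _ => m + 1)
  have hL1 : ∀ u, L (Sum.inl u) = ℓ u := fun u => rfl
  have hL2 : ∀ p, L (Sum.inr p) = m + 1 := fun p => rfl
  have hf12 := hℓ _ _ hf
  have hf21 := hℓ _ _ hf.symm
  have hm1 : m ≤ ℓ f₁ := min_le_left _ _
  have hm2 : m ≤ ℓ f₂ := min_le_right _ _
  have hm3 : ℓ f₁ ≤ m + 1 := by
    rcases min_choice (ℓ f₁) (ℓ f₂) with h | h
    · show ℓ f₁ ≤ min (ℓ f₁) (ℓ f₂) + 1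
      omega
    · show ℓ f₁ ≤ min (ℓ f₁) (ℓ f₂) + 1
      omega
  have hm4 : ℓ f₂ ≤ m + 1 := by
    show ℓ f₂ ≤ min (ℓ f₁) (ℓ f₂) + 1
    omega
  have hLia : ∀ j u, m ≤ L (ia T t j u) ∧ L (ia T t j u) ≤ m + 1 := by
    intro j u
    by_cases hu : T u
    · rw [ia_pos hu, hL1]
      rcases hu with rfl | rfl
      · rw [htx]
        exact ⟨hm2, hm4⟩
      · rw [hta]
        exact ⟨hm1, hm3⟩
    · rw [ia_neg hu, hL2]
      omega
  refine ⟨W ⊕ (Unit × U), inferInstance, Att G S T t ht, Sum.inl e₁, Sum.inl e₂, Sum.inl f₂,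
    Sum.inr ((), b), L, ?_, ?_, ?_, ?_, ?_, ?_, ?_, ?_, ?_, ?_⟩
  · rintro _ _ (⟨u, v, h, rfl, rfl⟩ | ⟨j, u, v, h, rfl, rfl⟩)
    · exact hℓ u v h
    · have h1 := (hLia j u).1
      have h2 := (hLia j v).2
      omega
  · exact Att_base ht he
  · have := Att_piece (G := G) (T := T) (t := t) ht (j := ()) hxb
    rw [ia_pos hTx, ia_neg hTb, htx] at this
    exact this
  · exact hℓ1
  · exact hℓ2
  · exact hℓ4
  · rw [hL2]
    have : min α β ≤ min (ℓ f₁) (ℓ f₂) := min_le_min hℓ3 hℓ4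
    show min α β + 1 ≤ min (ℓ f₁) (ℓ f₂) + 1
    omega
  · intro hp
    obtain ⟨cl, h1, h2⟩ := hbip hp
    refine ⟨cl, h1, ?_⟩
    have h3 := h1 _ _ (Att_base (S := S) ht hf)
    rw [← h2]
    revert h3
    cases cl (Sum.inl e₁) <;> cases cl (Sum.inl f₁) <;> cases cl (Sum.inl f₂) <;> decide
  · -- a good colouring
    obtain ⟨d', hd', hdg', hdd⟩ : ∃ d' : U → U → Bool, (∀ x y, d' x y = d' y x) ∧ Good H S d' ∧
        d' x a = c f₂ f₁ := by
      by_cases h : d x a = c f₂ f₁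
      · exact ⟨d, hd, hdg, h⟩
      · refine ⟨fun x y => !d x y, fun x y => congrArg _ (hd x y), hdg.not, ?_⟩
        show (!d x a) = c f₂ f₁
        revert h
        cases d x a <;> cases c f₂ f₁ <;> decide
    obtain ⟨C, hC1, hC2, hC3⟩ := Att_colour (S := S) (T := T) (t := t) ht c hc (fun _ => d')
      (fun _ => hd') (by
        rintro j u v (rfl | rfl) (rfl | rfl) h
        · exact absurd rfl h.ne
        · show d' u v = _
          rw [htx, hta, hdd]
        · show d' u v = _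
          rw [htx, hta, hd', hdd, hc]
        · exact absurd rfl h.ne)
    refine ⟨C, hC1, ?_⟩
    intro β' f hfi hmono
    have hbase := Att_mono (H := H) ht hH.nbr hG (d := fun _ => d') (fun _ => hdg') hC3 f hfi β'
      (by
        intro i0 j u hi0 hTu
        have hall := hH.sepf f hfi (Sum.inl f₂) (Sum.inl f₁) (fun hp => by
            obtain ⟨cl, h1, _⟩ := hbip hp
            exact ⟨cl, fun x y hxy => h1 _ _ (hmono x y hxy).1,
              h1 _ _ (Att_base (S := S) ht hf.symm)⟩)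
          (fun i => ∃ v, ¬ T v ∧ f i = Sum.inr (j, v))
          ⟨i0, by rw [hi0]; simp, by rw [hi0]; simp, u, hTu, hi0⟩ (by
            rintro p q hq1 hq2 hpq ⟨v, hv, hp⟩
            have h3 := (hmono p q hpq).1
            rw [hp] at h3
            obtain ⟨v', _, hv'⟩ := Att_private ht h3
            by_cases hT : T v'
            · exfalso
              rw [ia_pos hT] at hv'
              rcases hT with rfl | rfl
              · rw [htx] at hv'
                exact hq1 hv'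
              · rw [hta] at hv'
                exact hq2 hv'
            · exact ⟨v', hT, by rw [hv', ia_neg hT]⟩)
        intro i
        by_cases c1 : f i = Sum.inl f₂
        · exact ⟨x, by rw [ia_pos hTx, htx, c1]⟩
        · by_cases c2 : f i = Sum.inl f₁
          · exact ⟨a, by rw [ia_pos hTa, hta, c2]⟩
          · obtain ⟨v, hv, hi⟩ := hall i c1 c2
            exact ⟨v, by rw [ia_neg hv, hi]⟩) hmono
    choose g hg using hbase
    refine hcg β' g (fun p q h => hfi (by rw [hg, hg, h])) (fun i j hij => ?_)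
    obtain ⟨k1, k2⟩ := hmono i j hij
    rw [hg, hg] at k1 k2
    exact ⟨Att_base_ind ht hG k1, by rw [← hC2, k2]⟩
  · intro C hC hCg
    have k1 := hforce (fun u v => C (Sum.inl u) (Sum.inl v)) (fun u v => hC _ _)
      (hCg.comap Sum.inl Sum.inl_injective (fun u v h => Att_base ht h))
    have k2 := hforce2 (fun u v => C (ia T t () u) (ia T t () v)) (fun u v => hC _ _)
      (hCg.comap (ia T t ()) (ia_inj ht ()) (fun u v h => Att_piece ht h))
    simp only [ia_pos hTx, ia_pos hTa, ia_neg hTb, htx, hta] at k2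
    rw [hC (Sum.inl f₂) (Sum.inl f₁)] at k2
    revert k1 k2
    cases C (Sum.inl e₁) (Sum.inl e₂) <;> cases C (Sum.inl f₁) (Sum.inl f₂) <;>
      cases C (Sum.inl f₂) (Sum.inr ((), b)) <;> cases σ <;> cases τ <;> simp

/-- Positive senders of any length. -/
theorem exists_long {p : Prop} {n : ℕ} (H : SimpleGraph (Fin n)) (hH : TC p H) (k : ℕ) :
    LS p H true true k k := by
  obtain ⟨τ, hτ⟩ := exists_adj H hH
  induction k with
  | zero => exact LS_zero H hH
  | succ k ih =>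
    have h1 := LS_succ H hH (LS_succ H hH ih hτ) hτ
    rw [min_self, min_eq_left (Nat.le_succ k)] at h1
    have h2 : ((true == τ) == τ) = true := by cases τ <;> rfl
    rw [h2] at h1
    exact h1

end Pool.Agent.Lib.MP_3240be_co.H82
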