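import Mathlib
import Pool.Agent.Lib.MP_3240be_co.H82.Basic
import Pool.Agent.Lib.MP_3240be_co.H36.Chrom.Gadget

set_option autoImplicit false

/-!
# The isolating gadget

The gadget of `H36.Chrom.Gadget` with blocking copies only for the ordered pairs in a relation
`A` (an orientation of the edges of `H`), and the two facts on it that use connectivity.
-/

namespace Pool.Agent.Lib.MP_3240be_co.H82

open Pool.Agent.Lib.MP_3240be_co.H36.Chrom (GD surj_edge Sparse Leaf rho rho_inj rho_label)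

section Gadget

variable {n : ℕ} (H : SimpleGraph (Fin n)) (A : Fin n → Fin n → Prop) (a b w : Fin n) {G M : Type}
  (δ : M → {y : Fin n // H.Adj w y} → G)

/-- The free edges between the passengers and the blocking copies. -/
def Fr (q x u v : Fin n) : Prop :=
  A x u ∧ v ≠ a ∧ v ≠ b ∧ ((q = x ∧ H.Adj a v) ∨ (q = u ∧ H.Adj b v))

/-- The blue edges. -/
def EB (G M : Type) (s t : GD n G M ⊕ Fin n) : Prop :=
  (∃ v v', H.Adj v v' ∧ ¬ (v = a ∧ v' = b) ∧ ¬ (v = b ∧ v' = a) ∧
    s = Sum.inl (GD.z v) ∧ t = Sum.inl (GD.z v')) ∨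
  (∃ x u i v v', A x u ∧ H.Adj v v' ∧ v ≠ a ∧ v ≠ b ∧ v' ≠ a ∧ v' ≠ b ∧
    s = Sum.inl (GD.l x u i v) ∧ t = Sum.inl (GD.l x u i v')) ∨
  (∃ q x u i v, Fr H A a b q x u v ∧ s = Sum.inr q ∧ t = Sum.inl (GD.l x u i v)) ∨
  (∃ q x u i v, Fr H A a b q x u v ∧ t = Sum.inr q ∧ s = Sum.inl (GD.l x u i v))

/-- The red edges. -/
def ER (s t : GD n G M ⊕ Fin n) : Prop :=
  (∃ v v', ((v = a ∧ v' = b) ∨ (v = b ∧ v' = a)) ∧
    s = Sum.inl (GD.z v) ∧ t = Sum.inl (GD.z v')) ∨
  (∃ q q', H.Adj q q' ∧ s = Sum.inr q ∧ t = Sum.inr q') ∨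
  (∃ x u m v y y', A x u ∧ v ≠ a ∧ v ≠ b ∧ y ≠ w ∧ y' ≠ w ∧ H.Adj y y' ∧
    s = Sum.inl (rho H w δ x u m v y) ∧ t = Sum.inl (rho H w δ x u m v y'))

variable {H A a b w δ}

theorem EB_symm {s t : GD n G M ⊕ Fin n} (h : EB H A a b G M s t) : EB H A a b G M t s := by
  rcases h with ⟨v, v', h1, h2, h3, hs, ht⟩ | ⟨x, u, i, v, v', h1, h2, h3, h4, h5, h6, hs, ht⟩ |
    ⟨q, x, u, i, v, h1, hs, ht⟩ | ⟨q, x, u, i, v, h1, hs, ht⟩
  · exact Or.inl ⟨v', v, h1.symm, fun h => h3 ⟨h.2, h.1⟩, fun h => h2 ⟨h.2, h.1⟩, ht, hs⟩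
  · exact Or.inr (Or.inl ⟨x, u, i, v', v, h1, h2.symm, h5, h6, h3, h4, ht, hs⟩)
  · exact Or.inr (Or.inr (Or.inr ⟨q, x, u, i, v, h1, hs, ht⟩))
  · exact Or.inr (Or.inr (Or.inl ⟨q, x, u, i, v, h1, hs, ht⟩))

theorem ER_symm {s t : GD n G M ⊕ Fin n} (h : ER H A a b w δ s t) : ER H A a b w δ t s := by
  rcases h with ⟨v, v', h1, hs, ht⟩ | ⟨q, q', h1, hs, ht⟩ |
    ⟨x, u, m, v, y, y', h1, h2, h3, h4, h5, h6, hs, ht⟩
  · exact Or.inl ⟨v', v, by tauto, ht, hs⟩
  · exact Or.inr (Or.inl ⟨q', q, h1.symm, ht, hs⟩)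
  · exact Or.inr (Or.inr ⟨x, u, m, v, y', y, h1, h2, h3, h5, h4, h6.symm, ht, hs⟩)

theorem EB_irrefl (s : GD n G M ⊕ Fin n) : ¬ EB H A a b G M s s := by
  rintro (⟨v, v', h1, h2, h3, hs, ht⟩ | ⟨x, u, i, v, v', h1, h2, h3, h4, h5, h6, hs, ht⟩ |
    ⟨q, x, u, i, v, h1, hs, ht⟩ | ⟨q, x, u, i, v, h1, hs, ht⟩)
  · rw [hs] at ht
    simp only [Sum.inl.injEq, GD.z.injEq] at ht
    exact h1.ne ht
  · rw [hs] at ht
    simp only [Sum.inl.injEq, GD.l.injEq, true_and] at ht
    exact h2.ne ht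
  · rw [hs] at ht
    simp at ht
  · rw [hs] at ht
    simp at ht

theorem ER_irrefl (hab : a ≠ b) (hδ : ∀ m, Function.Injective (δ m)) (s : GD n G M ⊕ Fin n) :
    ¬ ER H A a b w δ s s := by
  rintro (⟨v, v', h1, hs, ht⟩ | ⟨q, q', h1, hs, ht⟩ |
    ⟨x, u, m, v, y, y', h1, h2, h3, h4, h5, h6, hs, ht⟩)
  · rw [hs] at ht
    simp only [Sum.inl.injEq, GD.z.injEq] at ht
    rcases h1 with ⟨rfl, rfl⟩ | ⟨rfl, rfl⟩
    · exact hab ht
    · exact hab ht.symm
  · rw [hs] at ht
    simp only [Sum.inr.injEq] at ht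
    exact h1.ne ht
  · rw [hs] at ht
    exact h6.ne (rho_inj hδ (Sum.inl_injective ht))

theorem E_disj {s t : GD n G M ⊕ Fin n} (h : EB H A a b G M s t) (h' : ER H A a b w δ s t) :
    False := by
  rcases h' with ⟨v, v', h1, hs, ht⟩ | ⟨q, q', h1, hs, ht⟩ |
    ⟨x, u, m, v, y, y', h1, h2, h3, h4, h5, h6, hs, ht⟩
  · rcases h with ⟨p, p', k1, k2, k3, js, jt⟩ | ⟨x, u, i, p, p', k1, k2, k3, k4, k5, k6, js, jt⟩ |
      ⟨q, x, u, i, p, k1, js, jt⟩ | ⟨q, x, u, i, p, k1, js, jt⟩
    · rw [hs] at js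
      rw [ht] at jt
      simp only [Sum.inl.injEq, GD.z.injEq] at js jt
      subst js jt
      rcases h1 with h1 | h1
      · exact k2 h1
      · exact k3 h1
    · rw [hs] at js
      simp at js
    · rw [hs] at js
      simp at js
    · rw [ht] at js
      simp at js
  · rcases h with ⟨p, p', k1, k2, k3, js, jt⟩ | ⟨x, u, i, p, p', k1, k2, k3, k4, k5, k6, js, jt⟩ |
      ⟨q, x, u, i, p, k1, js, jt⟩ | ⟨q, x, u, i, p, k1, js, jt⟩
    · rw [hs] at js
      simp at js
    · rw [hs] at js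
      simp at js
    · rw [ht] at jt
      simp at jt
    · rw [hs] at jt
      simp at jt
  · rcases h with ⟨p, p', k1, k2, k3, js, jt⟩ | ⟨x', u', i, p, p', k1, k2, k3, k4, k5, k6, js, jt⟩ |
      ⟨q, x, u, i, p, k1, js, jt⟩ | ⟨q, x, u, i, p, k1, js, jt⟩
    · rw [hs] at js
      rcases rho_label (H := H) (w := w) (δ := δ) (x := x) (u := u) (m := m) (v := v) (y := y)
        with ⟨i', hi'⟩ | hi'
      · rw [hi'] at js
        simp at js
      · rw [hi'] at js
        simp at js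
    · rw [hs] at js
      rw [ht] at jt
      have e1 : v = p := by
        rcases rho_label (H := H) (w := w) (δ := δ) (x := x) (u := u) (m := m) (v := v) (y := y)
          with ⟨i', hi'⟩ | hi'
        · rw [hi'] at js
          simp only [Sum.inl.injEq, GD.l.injEq] at js
          exact js.2.2.2
        · rw [hi'] at js
          simp at js
      have e2 : v = p' := by
        rcases rho_label (H := H) (w := w) (δ := δ) (x := x) (u := u) (m := m) (v := v) (y := y')
          with ⟨i', hi'⟩ | hi'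
        · rw [hi'] at jt
          simp only [Sum.inl.injEq, GD.l.injEq] at jt
          exact jt.2.2.2
        · rw [hi'] at jt
          simp at jt
      exact k2.ne (e1.symm.trans e2)
    · rw [hs] at js
      simp at js
    · rw [ht] at js
      simp at js

/-- There is no blue copy of `H`. -/
theorem no_blue {p : Prop} (hH : TC p H) (hA : ∀ x u, A x u → H.Adj x u) (hab : H.Adj a b)
    (hcl : p → ∃ cl : GD n G M ⊕ Fin n → Bool, (∀ s t, EB H A a b G M s t → cl s ≠ cl t) ∧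
      ∀ x u, H.Adj x u → cl (Sum.inr x) ≠ cl (Sum.inr u)) (f : Fin n → GD n G M ⊕ Fin n)
    (hf : Function.Injective f) (hE : ∀ p q, H.Adj p q → EB H A a b G M (f p) (f q)) : False := by
  by_cases hz : ∃ p v, f p = Sum.inl (GD.z v)
  · -- everything in the copy of `H` minus an edge
    have hall := hH.conn (fun p => ∃ v, f p = Sum.inl (GD.z v)) hz (by
      rintro p q hpq ⟨v, hv⟩
      rcases hE p q hpq with ⟨_, v', _, _, _, _, ht⟩ | ⟨x, u, i, _, _, _, _, _, _, _, _, hs, _⟩ |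
        ⟨_, _, _, _, _, _, hs, _⟩ | ⟨_, _, _, _, _, _, _, hs⟩
      · exact ⟨v', ht⟩
      · rw [hv] at hs
        simp at hs
      · rw [hv] at hs
        simp at hs
      · rw [hv] at hs
        simp at hs)
    choose h hh using hall
    have hinj : Function.Injective h := by
      intro p q hpq
      apply hf
      rw [hh, hh, hpq]
    have hadj : ∀ p q, H.Adj p q → H.Adj (h p) (h q) ∧ ¬ (h p = a ∧ h q = b) := by
      intro p q hpq
      rcases hE p q hpq with ⟨v, v', k1, k2, _, hs, ht⟩ |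
        ⟨x, u, i, _, _, _, _, _, _, _, _, hs, _⟩ | ⟨_, _, _, _, _, _, hs, _⟩ |
        ⟨_, _, _, _, _, _, _, hs⟩
      · rw [hh] at hs ht
        simp only [Sum.inl.injEq, GD.z.injEq] at hs ht
        rw [hs, ht]
        exact ⟨k1, k2⟩
      · rw [hh] at hs
        simp at hs
      · rw [hh] at hs
        simp at hs
      · rw [hh] at hs
        simp at hs
    obtain ⟨p, q, hpq, e1, e2⟩ := surj_edge h hinj (fun p q hpq => (hadj p q hpq).1) a b hab
    exact (hadj p q hpq).2 ⟨e1, e2⟩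
  · push Not at hz
    -- a vertex in a blocking copy
    have hex : ∃ p x u i v, A x u ∧ f p = Sum.inl (GD.l x u i v) := by
      obtain ⟨q, hq⟩ := hH.nbr a
      rcases hE a q hq with ⟨v, _, _, _, _, hs, _⟩ | ⟨x, u, i, v, _, k1, _, _, _, _, _, hs, _⟩ |
        ⟨_, x, u, i, v, k1, _, ht⟩ | ⟨_, x, u, i, v, k1, _, hs⟩
      · exact absurd hs (hz a v)
      · exact ⟨a, x, u, i, v, k1, hs⟩
      · exact ⟨q, x, u, i, v, k1.1, ht⟩
      · exact ⟨a, x, u, i, v, k1.1, hs⟩
    obtain ⟨p0, x, u, i, v0, hxu', hp0⟩ := hex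
    have hxu := hA x u hxu'
    have hall := hH.sepf f hf (Sum.inr x) (Sum.inr u) (fun hp => by
        obtain ⟨cl, h1, h2⟩ := hcl hp
        exact ⟨cl, fun p q hpq => h1 _ _ (hE p q hpq), h2 x u hxu⟩)
      (fun p => ∃ v, f p = Sum.inl (GD.l x u i v))
      ⟨p0, by rw [hp0]; simp, by rw [hp0]; simp, v0, hp0⟩ (by
        rintro p q hq1 hq2 hpq ⟨v, hv⟩
        rcases hE p q hpq with ⟨_, _, _, _, _, hs, _⟩ |
          ⟨x', u', i', v1, v2, _, _, _, _, _, _, hs, ht⟩ | ⟨_, _, _, _, _, _, hs, _⟩ |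
          ⟨c, x', u', i', v1, k1, ht, hs⟩
        · rw [hv] at hs
          simp at hs
        · rw [hv] at hs
          simp only [Sum.inl.injEq, GD.l.injEq] at hs
          obtain ⟨rfl, rfl, rfl, _⟩ := hs
          exact ⟨v2, ht⟩
        · rw [hv] at hs
          simp at hs
        · rw [hv] at hs
          simp only [Sum.inl.injEq, GD.l.injEq] at hs
          obtain ⟨rfl, rfl, rfl, _⟩ := hs
          rcases k1.2.2.2 with ⟨hc, _⟩ | ⟨hc, _⟩
          · exact absurd (by rw [ht, hc]) hq1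
          · exact absurd (by rw [ht, hc]) hq2)
    -- the induced map to `H` minus the edge `ab`
    have hmap : ∀ p, ∃ c, (f p = Sum.inl (GD.l x u i c) ∧ c ≠ a ∧ c ≠ b) ∨
        (f p = Sum.inr x ∧ c = a) ∨ (f p = Sum.inr u ∧ c = b) := by
      intro p
      by_cases h1 : f p = Sum.inr x
      · exact ⟨a, Or.inr (Or.inl ⟨h1, rfl⟩)⟩
      by_cases h2 : f p = Sum.inr u
      · exact ⟨b, Or.inr (Or.inr ⟨h2, rfl⟩)⟩
      obtain ⟨c, hc⟩ := hall p h1 h2
      refine ⟨c, Or.inl ⟨hc, ?_⟩⟩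
      obtain ⟨q, hq⟩ := hH.nbr p
      rcases hE p q hq with ⟨v, _, _, _, _, hs, _⟩ |
        ⟨x', u', i', v1, v2, _, _, k3, k4, _, _, hs, ht⟩ | ⟨_, _, _, _, _, _, hs, _⟩ |
        ⟨_, x', u', i', v1, k1, _, hs⟩
      · rw [hc] at hs
        simp at hs
      · rw [hc] at hs
        simp only [Sum.inl.injEq, GD.l.injEq] at hs
        rw [hs.2.2.2]
        exact ⟨k3, k4⟩
      · rw [hc] at hs
        simp at hs
      · rw [hc] at hs
        simp only [Sum.inl.injEq, GD.l.injEq] at hs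
        rw [hs.2.2.2]
        exact ⟨k1.2.1, k1.2.2.1⟩
    choose h hh using hmap
    have hab' := hab.ne
    have hinj : Function.Injective h := by
      intro p q hpq
      rcases hh p with ⟨h1, h2, h3⟩ | ⟨h1, h2⟩ | ⟨h1, h2⟩ <;>
        rcases hh q with ⟨k1, k2, k3⟩ | ⟨k1, k2⟩ | ⟨k1, k2⟩
      · exact hf (by rw [h1, k1, hpq])
      · exact absurd (hpq.trans k2) h2
      · exact absurd (hpq.trans k2) h3
      · exact absurd (hpq.symm.trans h2) k2
      · exact hf (by rw [h1, k1])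
      · exact absurd (h2.symm.trans (hpq.trans k2)) hab'
      · exact absurd (hpq.symm.trans h2) k3
      · exact absurd (k2.symm.trans (hpq.symm.trans h2)) hab'
      · exact hf (by rw [h1, k1])
    have hadj : ∀ p q, H.Adj p q → H.Adj (h p) (h q) ∧ ¬ (h p = a ∧ h q = b) := by
      intro p q hpq
      rcases hE p q hpq with ⟨v, _, _, _, _, hs, _⟩ |
        ⟨x', u', i', v1, v2, k1, k2, k3, k4, k5, k6, hs, ht⟩ |
        ⟨c, x', u', i', v1, k1, hs, ht⟩ | ⟨c, x', u', i', v1, k1, ht, hs⟩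
      · exact absurd hs (hz p v)
      · rcases hh p with ⟨h1, h2, h3⟩ | ⟨h1, h2⟩ | ⟨h1, h2⟩
        · rcases hh q with ⟨j1, j2, j3⟩ | ⟨j1, j2⟩ | ⟨j1, j2⟩
          · rw [h1] at hs
            rw [j1] at ht
            simp only [Sum.inl.injEq, GD.l.injEq] at hs ht
            rw [hs.2.2.2, ht.2.2.2]
            exact ⟨k2, fun h => k3 h.1⟩
          · rw [j1] at ht
            simp at ht
          · rw [j1] at ht
            simp at ht
        · rw [h1] at hs
          simp at hs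
        · rw [h1] at hs
          simp at hs
      · -- p a passenger, q in the blocking copy
        rcases hh q with ⟨j1, j2, j3⟩ | ⟨j1, j2⟩ | ⟨j1, j2⟩
        · rw [j1] at ht
          simp only [Sum.inl.injEq, GD.l.injEq] at ht
          obtain ⟨rfl, rfl, rfl, hv⟩ := ht
          rcases hh p with ⟨h1, h2, h3⟩ | ⟨h1, h2⟩ | ⟨h1, h2⟩
          · rw [h1] at hs
            simp at hs
          · rw [h1] at hs
            simp only [Sum.inr.injEq] at hs
            rcases k1.2.2.2 with ⟨hc, hadj⟩ | ⟨hc, hadj⟩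
            · rw [h2, hv]
              exact ⟨hadj, fun h => k1.2.2.1 h.2⟩
            · exact absurd (hs.trans hc) hxu.ne
          · rw [h1] at hs
            simp only [Sum.inr.injEq] at hs
            rcases k1.2.2.2 with ⟨hc, hadj⟩ | ⟨hc, hadj⟩
            · exact absurd (hs.trans hc).symm hxu.ne
            · rw [h2, hv]
              exact ⟨hadj, fun h => hab' h.1.symm⟩
        · rw [j1] at ht
          simp at ht
        · rw [j1] at ht
          simp at ht
      · -- q a passenger, p in the blocking copy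
        rcases hh p with ⟨j1, j2, j3⟩ | ⟨j1, j2⟩ | ⟨j1, j2⟩
        · rw [j1] at hs
          simp only [Sum.inl.injEq, GD.l.injEq] at hs
          obtain ⟨rfl, rfl, rfl, hv⟩ := hs
          rcases hh q with ⟨h1, h2, h3⟩ | ⟨h1, h2⟩ | ⟨h1, h2⟩
          · rw [h1] at ht
            simp at ht
          · rw [h1] at ht
            simp only [Sum.inr.injEq] at ht
            rcases k1.2.2.2 with ⟨hc, hadj⟩ | ⟨hc, hadj⟩
            · rw [h2, hv]
              exact ⟨hadj.symm, fun h => hab' h.2⟩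
            · exact absurd (ht.trans hc) hxu.ne
          · rw [h1] at ht
            simp only [Sum.inr.injEq] at ht
            rcases k1.2.2.2 with ⟨hc, hadj⟩ | ⟨hc, hadj⟩
            · exact absurd (ht.trans hc).symm hxu.ne
            · rw [h2, hv]
              exact ⟨hadj.symm, fun h => k1.2.1 h.1⟩
        · rw [j1] at hs
          simp at hs
        · rw [j1] at hs
          simp at hs
    obtain ⟨p, q, hpq, e1, e2⟩ := surj_edge h hinj (fun p q hpq => (hadj p q hpq).1) a b hab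
    exact (hadj p q hpq).2 ⟨e1, e2⟩

/-- A red copy of `H` lies on the passengers. -/
theorem red_pass {p : Prop} (hH : TC p H)
    (hs : Sparse (n * n) δ) (f : Fin n → GD n G M ⊕ Fin n)
    (hf : Function.Injective f) (hE : ∀ p q, H.Adj p q → ER H A a b w δ (f p) (f q)) :
    ∀ p, ∃ q, f p = Sum.inr q := by
  classical
  by_cases hq : ∃ p q, f p = Sum.inr q
  · refine hH.conn (fun p => ∃ q, f p = Sum.inr q) hq ?_
    rintro p p' hpp ⟨q, hq⟩
    rcases hE p p' hpp with ⟨_, _, _, hs, _⟩ | ⟨_, q', _, _, ht⟩ |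
      ⟨_, _, _, _, _, _, _, _, _, _, _, _, hs, _⟩
    · rw [hq] at hs
      simp at hs
    · exact ⟨q', ht⟩
    · rw [hq] at hs
      simp at hs
  exfalso
  push Not at hq
  by_cases hz : ∃ p v, f p = Sum.inl (GD.z v)
  · -- at most two vertices
    have hz' : ∃ p, f p = Sum.inl (GD.z a) ∨ f p = Sum.inl (GD.z b) := by
      obtain ⟨p, v, hv⟩ := hz
      obtain ⟨p', hpp⟩ := hH.nbr p
      refine ⟨p, ?_⟩
      rcases hE p p' hpp with ⟨v1, v2, hv12, hs, _⟩ | ⟨q, _, _, hs, _⟩ |
        ⟨x, u, m, v1, y, _, _, _, _, _, _, _, hs, _⟩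
      · rcases hv12 with ⟨rfl, _⟩ | ⟨rfl, _⟩
        · exact Or.inl hs
        · exact Or.inr hs
      · exact absurd hs (hq _ _)
      · rw [hv] at hs
        rcases rho_label (H := H) (w := w) (δ := δ) (x := x) (u := u) (m := m) (v := v1) (y := y)
          with ⟨i', hi'⟩ | hi'
        · rw [hi'] at hs
          simp at hs
        · rw [hi'] at hs
          simp at hs
    have hall := hH.conn (fun p => f p = Sum.inl (GD.z a) ∨ f p = Sum.inl (GD.z b)) hz' (by
      intro p p' hpp hp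
      rcases hE p p' hpp with ⟨v1, v2, hv12, _, ht⟩ | ⟨q, _, _, hs, _⟩ |
        ⟨x, u, m, v1, y, _, _, _, _, _, _, _, hs, _⟩
      · rcases hv12 with ⟨_, rfl⟩ | ⟨_, rfl⟩
        · exact Or.inr ht
        · exact Or.inl ht
      · exact absurd hs (hq _ _)
      · rcases rho_label (H := H) (w := w) (δ := δ) (x := x) (u := u) (m := m) (v := v1) (y := y)
          with ⟨i', hi'⟩ | hi'
        · rw [hs, hi'] at hp
          simp at hp
        · rw [hs, hi'] at hp
          simp at hp)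
    -- three different vertices
    obtain ⟨p, _, _⟩ := hz
    obtain ⟨p2, h21, _⟩ := hH.third p p
    obtain ⟨p3, h31, h32⟩ := hH.third p p2
    rcases hall p with e1 | e1 <;> rcases hall p2 with e2 | e2 <;> rcases hall p3 with e3 | e3
    · exact h21 (hf (e2.trans e1.symm))
    · exact h21 (hf (e2.trans e1.symm))
    · exact h31 (hf (e3.trans e1.symm))
    · exact h32 (hf (e3.trans e2.symm))
    · exact h32 (hf (e3.trans e2.symm))
    · exact h31 (hf (e3.trans e1.symm))
    · exact h21 (hf (e2.trans e1.symm))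
    · exact h21 (hf (e2.trans e1.symm))
  push Not at hz
  -- all edges in red pieces
  have hpc : ∀ p q, H.Adj p q → ∃ x u m v y y', v ≠ a ∧ v ≠ b ∧ y ≠ w ∧ y' ≠ w ∧ H.Adj y y' ∧
      f p = Sum.inl (rho H w δ x u m v y) ∧ f q = Sum.inl (rho H w δ x u m v y') := by
    intro p q hpq
    rcases hE p q hpq with ⟨v1, _, _, hs, _⟩ | ⟨q', _, _, hs, _⟩ |
      ⟨x, u, m, v, y, y', h1, h2, h3, h4, h5, h6, hs, ht⟩
    · exact absurd hs (hz _ _)
    · exact absurd hs (hq _ _)
    · exact ⟨x, u, m, v, y, y', h2, h3, h4, h5, h6, hs, ht⟩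
  -- labels
  let lab : GD n G M → Fin n × Fin n × Fin n := fun d => match d with
    | GD.z v => (v, v, v)
    | GD.l x u _ v => (x, u, v)
    | GD.r x u _ v _ => (x, u, v)
  have hlab : ∀ x u m v y, lab (rho H w δ x u m v y) = (x, u, v) := by
    intro x u m v y
    rcases rho_label (H := H) (w := w) (δ := δ) (x := x) (u := u) (m := m) (v := v) (y := y)
      with ⟨i', hi'⟩ | hi'
    · rw [hi']
    · rw [hi']
  obtain ⟨p0', hp0'⟩ := hH.nbr a
  obtain ⟨x, u, m0, v, y0, y0', -, -, -, -, -, hf0, hf0'⟩ := hpc a p0' hp0'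
  have hallx := hH.conn (fun p => ∃ d, f p = Sum.inl d ∧ lab d = (x, u, v))
    ⟨a, _, hf0, hlab _ _ _ _ _⟩ (by
      rintro p q hpq ⟨d, hd1, hd2⟩
      obtain ⟨x1, u1, m1, v1, y1, y1', -, -, -, -, -, h1, h2⟩ := hpc p q hpq
      rw [hd1] at h1
      have := Sum.inl_injective h1
      rw [this, hlab] at hd2
      exact ⟨_, h2, by rw [hlab, hd2]⟩)
  have hpc' : ∀ p q, ∃ m, H.Adj p q → ∃ y y', y ≠ w ∧ y' ≠ w ∧
      f p = Sum.inl (rho H w δ x u m v y) ∧ f q = Sum.inl (rho H w δ x u m v y') := by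
    intro p q
    by_cases hpq : H.Adj p q
    · obtain ⟨x1, u1, m1, v1, y1, y1', -, -, e1, e2, -, h1, h2⟩ := hpc p q hpq
      obtain ⟨d, hd1, hd2⟩ := hallx p
      rw [h1] at hd1
      rw [← Sum.inl_injective hd1, hlab] at hd2
      simp only [Prod.mk.injEq] at hd2
      obtain ⟨rfl, rfl, rfl⟩ := hd2
      exact ⟨m1, fun _ => ⟨y1, y1', e1, e2, h1, h2⟩⟩
    · exact ⟨m0, fun h => absurd h hpq⟩
  choose mm hmm using hpc'
  -- being in the piece `m`
  let In : M → Fin n → Prop := fun m p => ∃ y, y ≠ w ∧ f p = Sum.inl (rho H w δ x u m v y)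
  have hIn : ∀ p q, H.Adj p q → In (mm p q) p ∧ In (mm p q) q := by
    intro p q hpq
    obtain ⟨y, y', h1, h2, h3, h4⟩ := hmm p q hpq
    exact ⟨⟨y, h1, h3⟩, ⟨y', h2, h4⟩⟩
  have hcommon : ∀ m m' p, m ≠ m' → In m p → In m' p → ∃ t t', δ m t = δ m' t' ∧
      f p = Sum.inl (GD.l x u (δ m t) v) := by
    rintro m m' p hne ⟨y, hy, h1⟩ ⟨y', hy', h2⟩
    rw [h1] at h2
    have h3 := Sum.inl_injective h2
    by_cases c1 : H.Adj w y
    · by_cases c2 : H.Adj w y'
      · simp only [rho, dif_pos c1, dif_pos c2, GD.l.injEq, true_and, and_true] at h3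
        refine ⟨⟨y, c1⟩, ⟨y', c2⟩, h3, ?_⟩
        rw [h1]
        simp only [rho, dif_pos c1]
      · simp only [rho, dif_pos c1, dif_neg c2] at h3
        simp at h3
    · by_cases c2 : H.Adj w y'
      · simp only [rho, dif_neg c1, dif_pos c2] at h3
        simp at h3
      · simp only [rho, dif_neg c1, dif_neg c2, GD.r.injEq, true_and] at h3
        exact absurd h3.1 hne
  let S : Finset M := ((Finset.univ : Finset (Fin n × Fin n)).filter
    (fun p => H.Adj p.1 p.2)).image (fun p => mm p.1 p.2)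
  have hS : ∀ p q, H.Adj p q → mm p q ∈ S := fun p q hpq =>
    Finset.mem_image.2 ⟨(p, q), Finset.mem_filter.2 ⟨Finset.mem_univ _, hpq⟩, rfl⟩
  have hScard : S.card ≤ n * n := by
    refine Finset.card_image_le.trans ((Finset.card_filter_le _ _).trans ?_)
    rw [Finset.card_univ, Fintype.card_prod, Fintype.card_fin]
  by_cases hS2 : 2 ≤ S.card
  · obtain ⟨m, hm, -, -, -, hleaf, -⟩ := hs S hS2 hScard
    -- the shared point
    let I : Fin n → Prop := fun p => In m p ∧ ∃ m' ∈ S, m' ≠ m ∧ In m' p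
    have hI1 : ∀ p q, I p → I q → p = q := by
      rintro p q ⟨hp, m', hm', hne', hp'⟩ ⟨hq, m'', hm'', hne'', hq'⟩
      obtain ⟨t, t', h1, h2⟩ := hcommon m m' p hne'.symm hp hp'
      obtain ⟨s, s', h3, h4⟩ := hcommon m m'' q hne''.symm hq hq'
      have := hleaf m' hm' m'' hm'' hne' hne'' t t' s s' h1 h3
      apply hf
      rw [h2, h4, this]
    obtain ⟨⟨p1, q1⟩, hpq1, hpqm⟩ := Finset.mem_image.1 hm
    have hadj1 : H.Adj p1 q1 := (Finset.mem_filter.1 hpq1).2
    simp only at hpqm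
    have hin1 := hIn p1 q1 hadj1
    rw [hpqm] at hin1
    have hall := hH.sep1 I hI1 (fun p => In m p) (by
      by_cases h1 : I p1
      · exact ⟨q1, fun h2 => hadj1.ne (hI1 _ _ h1 h2), hin1.2⟩
      · exact ⟨p1, h1, hin1.1⟩) (by
      intro p q hp _ hpq hmp
      by_cases h1 : mm p q = m
      · have := (hIn p q hpq).2
        rwa [h1] at this
      · exact absurd ⟨hmp, mm p q, hS p q hpq, h1, (hIn p q hpq).1⟩ hp)
    -- another piece
    obtain ⟨m', hm', hne'⟩ : ∃ m' ∈ S, m' ≠ m := by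
      by_contra hcon
      push Not at hcon
      have : S ⊆ {m} := fun k hk => Finset.mem_singleton.2 (hcon k hk)
      have := Finset.card_le_card this
      rw [Finset.card_singleton] at this
      omega
    obtain ⟨⟨p2, q2⟩, hpq2, hpqm2⟩ := Finset.mem_image.1 hm'
    have hadj2 : H.Adj p2 q2 := (Finset.mem_filter.1 hpq2).2
    simp only at hpqm2
    have hin2 := hIn p2 q2 hadj2
    rw [hpqm2] at hin2
    have hI2 : ∀ p, In m' p → I p := by
      intro p hp
      by_contra hc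
      exact hc ⟨hall p hc, m', hm', hne', hp⟩
    exact hadj2.ne (hI1 _ _ (hI2 _ hin2.1) (hI2 _ hin2.2))
  · -- a single piece has too few vertices
    have h1 : ∃ m, ∀ p q, H.Adj p q → mm p q = m := by
      refine ⟨mm a p0', fun p q hpq => ?_⟩
      by_contra hne
      apply hS2
      exact Finset.one_lt_card.2 ⟨_, hS p q hpq, _, hS a p0' hp0', hne⟩
    obtain ⟨m, hm⟩ := h1
    have h2 : ∀ p, ∃ y, y ≠ w ∧ f p = Sum.inl (rho H w δ x u m v y) := by
      intro p
      obtain ⟨q, hpq⟩ := hH.nbr p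
      have := (hIn p q hpq).1
      rwa [hm p q hpq] at this
    choose g hg1 hg2 using h2
    have hginj : Function.Injective g := by
      intro p q hpq
      apply hf
      rw [hg2, hg2, hpq]
    obtain ⟨p, hp⟩ := (Finite.injective_iff_surjective.1 hginj) w
    exact hg1 p hp

/-- The edges of the pattern: colour `0` is blue, colour `1` is red. -/
def EG (H : SimpleGraph (Fin n)) (A : Fin n → Fin n → Prop) (a b w : Fin n) (δ : M → {y : Fin n // H.Adj w y} → G)
    (c : Fin 2) (s t : GD n G M ⊕ Fin n) : Prop :=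
  if c = 0 then EB H A a b G M s t else ER H A a b w δ s t

/-- Every colouring that depends only on the pattern colour on the active vertices has a
monochromatic copy of `H`. -/
theorem mono_copy (hA : ∀ x u, H.Adj x u → A x u ∨ A u x) (hab : H.Adj a b) (hw : ∃ y, H.Adj w y) (hδ : ∀ m, Function.Injective (δ m))
    (hc : ∀ c : G → Bool × Fin n, ∃ m, ∀ t t', c (δ m t) = c (δ m t'))
    (κ : GD n G M ⊕ Fin n → GD n G M ⊕ Fin n → Bool) (hκ : ∀ s t, κ s t = κ t s)
    (φ : Fin 2 → Bool)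
    (hφ : ∀ c d d', EG H A a b w δ c (Sum.inl d) (Sum.inl d') → κ (Sum.inl d) (Sum.inl d') = φ c) :
    ∃ (β : Bool) (f : Fin n → GD n G M ⊕ Fin n), Function.Injective f ∧
      ∀ p q, H.Adj p q → (∃ c, EG H A a b w δ c (f p) (f q)) ∧ κ (f p) (f q) = β := by
  classical
  have hφ0 : ∀ d d', EB H A a b G M (Sum.inl d) (Sum.inl d') → κ (Sum.inl d) (Sum.inl d') = φ 0 :=
    fun d d' h => hφ 0 d d' (by simpa [EG] using h)
  have hφ1 : ∀ d d', ER H A a b w δ (Sum.inl d) (Sum.inl d') → κ (Sum.inl d) (Sum.inl d') = φ 1 :=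
    fun d d' h => hφ 1 d d' (by simpa [EG] using h)
  have h0 : ∀ s t, EB H A a b G M s t → ∃ c, EG H A a b w δ c s t := fun s t h =>
    ⟨0, by simpa [EG] using h⟩
  have h1 : ∀ s t, ER H A a b w δ s t → ∃ c, EG H A a b w δ c s t := fun s t h =>
    ⟨1, by simpa [EG] using h⟩
  by_cases hφe : φ 0 = φ 1
  · -- the copy with one red edge
    refine ⟨φ 0, fun v => Sum.inl (GD.z v), ?_, ?_⟩
    · intro v v' h
      simpa using h
    · intro p q hpq
      by_cases hr : (p = a ∧ q = b) ∨ (p = b ∧ q = a)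
      · have hE : ER H A a b w δ (Sum.inl (GD.z p)) (Sum.inl (GD.z q)) :=
          Or.inl ⟨p, q, hr, rfl, rfl⟩
        exact ⟨h1 _ _ hE, by rw [hφ1 _ _ hE, hφe]⟩
      · have hE : EB H A a b G M (Sum.inl (GD.z p)) (Sum.inl (GD.z q)) :=
          Or.inl ⟨p, q, hpq, fun h => hr (Or.inl h), fun h => hr (Or.inr h), rfl, rfl⟩
        exact ⟨h0 _ _ hE, hφ0 _ _ hE⟩
  by_cases hQ : ∀ p q, H.Adj p q → κ (Sum.inr p) (Sum.inr q) = φ 1
  · refine ⟨φ 1, fun v => Sum.inr v, fun v v' h => by simpa using h, ?_⟩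
    intro p q hpq
    exact ⟨h1 _ _ (Or.inr (Or.inl ⟨p, q, hpq, rfl, rfl⟩)), hQ p q hpq⟩
  push Not at hQ
  obtain ⟨x, u, hAxu, hxu, hκxu⟩ : ∃ x u, A x u ∧ H.Adj x u ∧
      κ (Sum.inr x) (Sum.inr u) ≠ φ 1 := by
    obtain ⟨x, u, hxu, h⟩ := hQ
    rcases hA x u hxu with h1 | h1
    · exact ⟨x, u, h1, hxu, h⟩
    · exact ⟨u, x, h1, hxu.symm, by rw [hκ]; exact h⟩
  have hbool : ∀ s : Bool, s ≠ φ 1 → s = φ 0 := by
    intro s hs
    revert hs hφe
    cases s <;> cases φ 0 <;> cases φ 1 <;> simp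
  have hκxu' := hbool _ hκxu
  -- the blocking copies
  by_cases hbl : ∃ i : G, ∀ q v, Fr H A a b q x u v →
      κ (Sum.inr q) (Sum.inl (GD.l x u i v)) = φ 0
  · obtain ⟨i, hi⟩ := hbl
    let f : Fin n → GD n G M ⊕ Fin n := fun v =>
      if v = a then Sum.inr x else if v = b then Sum.inr u else Sum.inl (GD.l x u i v)
    have fa : f a = Sum.inr x := by simp only [f, if_true]
    have fb : f b = Sum.inr u := by
      simp only [f, if_true]
      rw [if_neg hab.ne.symm]
    have fv : ∀ v, v ≠ a → v ≠ b → f v = Sum.inl (GD.l x u i v) := by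
      intro v h1 h2
      simp only [f, if_neg h1, if_neg h2]
    have hfi : Function.Injective f := by
      intro v v' hvv
      by_cases c1 : v = a
      · by_cases c2 : v' = a
        · rw [c1, c2]
        · by_cases c3 : v' = b
          · rw [c1, c3, fa, fb] at hvv
            exact absurd (Sum.inr_injective hvv) hxu.ne
          · rw [c1, fa, fv v' c2 c3] at hvv
            simp at hvv
      · by_cases c2 : v = b
        · by_cases c3 : v' = a
          · rw [c2, c3, fa, fb] at hvv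
            exact absurd (Sum.inr_injective hvv).symm hxu.ne
          · by_cases c4 : v' = b
            · rw [c2, c4]
            · rw [c2, fb, fv v' c3 c4] at hvv
              simp at hvv
        · rw [fv v c1 c2] at hvv
          by_cases c3 : v' = a
          · rw [c3, fa] at hvv
            simp at hvv
          · by_cases c4 : v' = b
            · rw [c4, fb] at hvv
              simp at hvv
            · rw [fv v' c3 c4] at hvv
              simpa using hvv
    refine ⟨φ 0, f, hfi, ?_⟩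
    -- symmetric treatment of the edges
    have hedge : ∀ p q, H.Adj p q → (p = a ∧ q = b) ∨ (q ≠ a ∧ q ≠ b) →
        (∃ c, EG H A a b w δ c (f p) (f q)) ∧ κ (f p) (f q) = φ 0 := by
      intro p q hpq hcase
      rcases hcase with ⟨rfl, rfl⟩ | ⟨hq1, hq2⟩
      · rw [fa, fb]
        exact ⟨h1 _ _ (Or.inr (Or.inl ⟨x, u, hxu, rfl, rfl⟩)), hκxu'⟩
      · by_cases c1 : p = a
        · have hF : Fr H A a b x x u q := ⟨hAxu, hq1, hq2, Or.inl ⟨rfl, c1 ▸ hpq⟩⟩
          rw [c1, fa, fv q hq1 hq2]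
          exact ⟨h0 _ _ (Or.inr (Or.inr (Or.inl ⟨x, x, u, i, q, hF, rfl, rfl⟩))), hi _ _ hF⟩
        · by_cases c2 : p = b
          · have hF : Fr H A a b u x u q := ⟨hAxu, hq1, hq2, Or.inr ⟨rfl, c2 ▸ hpq⟩⟩
            rw [c2, fb, fv q hq1 hq2]
            exact ⟨h0 _ _ (Or.inr (Or.inr (Or.inl ⟨u, x, u, i, q, hF, rfl, rfl⟩))), hi _ _ hF⟩
          · have hE : EB H A a b G M (Sum.inl (GD.l x u i p)) (Sum.inl (GD.l x u i q)) :=
              Or.inr (Or.inl ⟨x, u, i, p, q, hAxu, hpq, c1, c2, hq1, hq2, rfl, rfl⟩)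
            rw [fv p c1 c2, fv q hq1 hq2]
            exact ⟨h0 _ _ hE, hφ0 _ _ hE⟩
    intro p q hpq
    have hrev : ∀ p q, (∃ c, EG H A a b w δ c (f q) (f p)) ∧ κ (f q) (f p) = φ 0 →
        (∃ c, EG H A a b w δ c (f p) (f q)) ∧ κ (f p) (f q) = φ 0 := by
      rintro p q ⟨⟨c, hc⟩, h2⟩
      refine ⟨⟨c, ?_⟩, by rw [hκ, h2]⟩
      unfold EG at hc ⊢
      split_ifs at hc ⊢ with h
      · exact EB_symm hc
      · exact ER_symm hc
    by_cases c1 : q = a ∨ q = b
    · by_cases c2 : p = a ∨ p = b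
      · rcases c1 with c1 | c1 <;> rcases c2 with c2 | c2
        · exact absurd (c2.trans c1.symm) hpq.ne
        · exact hrev p q (hedge q p hpq.symm (Or.inl ⟨c1, c2⟩))
        · exact hedge p q hpq (Or.inl ⟨c2, c1⟩)
        · exact absurd (c2.trans c1.symm) hpq.ne
      · push Not at c2
        exact hrev p q (hedge q p hpq.symm (Or.inr c2))
    · push Not at c1
      exact hedge p q hpq (Or.inr c1)
  · -- every blocking copy has a free edge of colour `φ 1`
    push Not at hbl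
    choose qq vv hF hκF using hbl
    obtain ⟨m, hm⟩ := hc (fun i => (decide (qq i = x), vv i))
    have hq : ∀ i, (qq i = x ∧ H.Adj a (vv i)) ∨ (qq i = u ∧ H.Adj b (vv i)) :=
      fun i => (hF i).2.2.2
    · obtain ⟨y0, hy0⟩ := hw
      let t0 : {y : Fin n // H.Adj w y} := ⟨y0, hy0⟩
      set q := qq (δ m t0) with hqdef
      set v := vv (δ m t0) with hvdef
      have hqt : ∀ t, qq (δ m t) = q ∧ vv (δ m t) = v := by
        intro t
        have h2 := hm t t0
        simp only [Prod.mk.injEq, decide_eq_decide] at h2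
        refine ⟨?_, h2.2⟩
        by_cases c1 : q = x
        · rw [c1]
          exact h2.1.2 c1
        · have c2 : ¬ qq (δ m t) = x := fun h => c1 (h2.1.1 h)
          rcases hq (δ m t) with ⟨h3, _⟩ | ⟨h3, _⟩
          · exact absurd h3 c2
          · rcases hq (δ m t0) with ⟨h4, _⟩ | ⟨h4, _⟩
            · exact absurd h4 c1
            · rw [h3]
              exact h4.symm
      have hFv : v ≠ a ∧ v ≠ b := ⟨(hF (δ m t0)).2.1, (hF (δ m t0)).2.2.1⟩
      let f : Fin n → GD n G M ⊕ Fin n := fun y =>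
        if y = w then Sum.inr q else Sum.inl (rho H w δ x u m v y)
      have fw : f w = Sum.inr q := by simp only [f, if_true]
      have fy : ∀ y, y ≠ w → f y = Sum.inl (rho H w δ x u m v y) := by
        intro y hy
        simp only [f, if_neg hy]
      have hfi : Function.Injective f := by
        intro y y' hyy
        by_cases c1 : y = w
        · by_cases c2 : y' = w
          · rw [c1, c2]
          · rw [c1, fw, fy y' c2] at hyy
            simp at hyy
        · by_cases c2 : y' = w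
          · rw [c2, fw, fy y c1] at hyy
            simp at hyy
          · rw [fy y c1, fy y' c2] at hyy
            exact rho_inj hδ (Sum.inl_injective hyy)
      have hstar : ∀ y, H.Adj w y →
          EB H A a b G M (Sum.inr q) (Sum.inl (rho H w δ x u m v y)) ∧
          κ (Sum.inr q) (Sum.inl (rho H w δ x u m v y)) = φ 1 := by
        intro y hy
        have e1 : rho H w δ x u m v y = GD.l x u (δ m ⟨y, hy⟩) v := by
          simp only [rho, dif_pos hy]
        obtain ⟨e2, e3⟩ := hqt ⟨y, hy⟩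
        have hF' := hF (δ m ⟨y, hy⟩)
        have hκF' := hκF (δ m ⟨y, hy⟩)
        rw [e2, e3] at hF' hκF'
        rw [e1]
        refine ⟨Or.inr (Or.inr (Or.inl ⟨q, x, u, _, v, hF', rfl, rfl⟩)), ?_⟩
        by_contra hne
        exact hκF' (hbool _ hne)
      refine ⟨φ 1, f, hfi, ?_⟩
      intro p p' hpp
      by_cases c1 : p = w
      · have c2 : p' ≠ w := fun h => hpp.ne (c1.trans h.symm)
        obtain ⟨k1, k2⟩ := hstar p' (c1 ▸ hpp)
        rw [c1, fw, fy p' c2]
        exact ⟨h0 _ _ k1, k2⟩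
      · by_cases c2 : p' = w
        · obtain ⟨k1, k2⟩ := hstar p (c2 ▸ hpp.symm)
          rw [c2, fw, fy p c1]
          exact ⟨h0 _ _ (EB_symm k1), by rw [hκ, k2]⟩
        · rw [fy p c1, fy p' c2]
          have hE : ER H A a b w δ (Sum.inl (rho H w δ x u m v p))
              (Sum.inl (rho H w δ x u m v p')) :=
            Or.inr (Or.inr ⟨x, u, m, v, p, p', hAxu, hFv.1, hFv.2, c1, c2, hpp, rfl, rfl⟩)
          exact ⟨h1 _ _ hE, hφ1 _ _ hE⟩

/-- A proper 2-colouring of the pattern of a bipartite graph. -/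
theorem pattern_bip (κ : Fin n → Bool) (hκ : ∀ x y, H.Adj x y → κ x ≠ κ y)
    (hab : H.Adj a b) (hA : ∀ x u, A x u → H.Adj x u ∧ κ x = κ a) :
    ∃ cl : GD n G M ⊕ Fin n → Bool, (∀ s t, EB H A a b G M s t → cl s ≠ cl t) ∧
      (∀ s t, ER H A a b w δ s t → cl s ≠ cl t) ∧ ∀ q, cl (Sum.inr q) = κ q := by
  let cl : GD n G M ⊕ Fin n → Bool := Sum.elim (fun d => match d with
    | GD.z v => κ v
    | GD.l _ _ _ v => κ v
    | GD.r _ _ _ v y => xor (xor (κ y) (κ w)) (!κ v)) κ
  have hz : ∀ v, cl (Sum.inl (GD.z v)) = κ v := fun v => rfl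
  have hl : ∀ x u i v, cl (Sum.inl (GD.l x u i v)) = κ v := fun x u i v => rfl
  have hq : ∀ q, cl (Sum.inr q) = κ q := fun q => rfl
  have hr : ∀ x u m v y, cl (Sum.inl (rho H w δ x u m v y)) = xor (xor (κ y) (κ w)) (!κ v) := by
    intro x u m v y
    by_cases h : H.Adj w y
    · simp only [rho, dif_pos h]
      rw [hl]
      have := hκ w y h
      revert this
      cases κ w <;> cases κ y <;> cases κ v <;> decide
    · simp only [rho, dif_neg h]
      rfl
  have hFr : ∀ q x u v, Fr H A a b q x u v → κ q ≠ κ v := by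
    rintro q x u v ⟨h1, _, _, ⟨rfl, h2⟩ | ⟨rfl, h2⟩⟩
    · rw [(hA _ _ h1).2]
      exact hκ _ _ h2
    · have h3 := hκ _ _ (hA _ _ h1).1
      have h4 := hκ _ _ hab
      have h5 := hκ _ _ h2
      rw [(hA _ _ h1).2] at h3
      revert h3 h4 h5
      cases κ a <;> cases κ b <;> cases κ q <;> cases κ v <;> decide
  refine ⟨cl, ?_, ?_, hq⟩
  · rintro s t (⟨v, v', h1, h2, h3, hs, ht⟩ | ⟨x, u, i, v, v', h1, h2, h3, h4, h5, h6, hs, ht⟩ |
      ⟨q, x, u, i, v, h1, hs, ht⟩ | ⟨q, x, u, i, v, h1, hs, ht⟩)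
    · rw [hs, ht, hz, hz]
      exact hκ _ _ h1
    · rw [hs, ht, hl, hl]
      exact hκ _ _ h2
    · rw [hs, ht, hl, hq]
      exact hFr _ _ _ _ h1
    · rw [hs, ht, hl, hq]
      exact (hFr _ _ _ _ h1).symm
  · rintro s t (⟨v, v', h1, hs, ht⟩ | ⟨q, q', h1, hs, ht⟩ |
      ⟨x, u, m, v, y, y', h1, h2, h3, h4, h5, h6, hs, ht⟩)
    · rw [hs, ht, hz, hz]
      rcases h1 with ⟨rfl, rfl⟩ | ⟨rfl, rfl⟩
      · exact hκ _ _ hab
      · exact (hκ _ _ hab).symm
    · rw [hs, ht, hq, hq]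
      exact hκ _ _ h1
    · rw [hs, ht, hr, hr]
      have := hκ _ _ h6
      revert this
      cases κ y <;> cases κ y' <;> cases κ w <;> cases κ v <;> decide

end Gadget

end Pool.Agent.Lib.MP_3240be_co.H82
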