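import Mathlib
import Pool.Agent.Lib.MP_3240be_co.H82.Attach
import Pool.Agent.Lib.MP_3240be_co.H82.Gadget82
import Pool.Agent.Lib.MP_3240be_co.H36.Chrom.Main

set_option autoImplicit false

/-!
# Well connected graphs are not Ramsey-equivalent to larger connected graphs
-/

namespace Pool.Agent.Lib.MP_3240be_co.H82

open Pool.Agent.Lib.MP_3240be_co.H36.Chrom (GD Sparse good ArrowsT arrowsT_equiv iso_of_le)

/-- The pattern together with two isolated reference edges. -/
def Base {n : ℕ} {G M : Type} (H : SimpleGraph (Fin n)) (A : Fin n → Fin n → Prop) (a b : Fin n)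
    (δ : M → {y : Fin n // H.Adj a y} → G)
    (hsy : ∀ c s t, EG H A a b a δ c s t → EG H A a b a δ c t s)
    (hir : ∀ c s, ¬ EG H A a b a δ c s s) :
    SimpleGraph ((GD n G M ⊕ Fin n) ⊕ (Fin 2 × Bool)) where
  Adj x y := (∃ s t, (∃ c, EG H A a b a δ c s t) ∧ x = Sum.inl s ∧ y = Sum.inl t) ∨
    (∃ c p q, p ≠ q ∧ x = Sum.inr (c, p) ∧ y = Sum.inr (c, q))
  symm := ⟨by
    rintro _ _ (⟨s, t, ⟨c, h⟩, rfl, rfl⟩ | ⟨c, p, q, h, rfl, rfl⟩)
    · exact Or.inl ⟨t, s, ⟨c, hsy c s t h⟩, rfl, rfl⟩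
    · exact Or.inr ⟨c, q, p, h.symm, rfl, rfl⟩⟩
  loopless := ⟨by
    rintro x (⟨s, t, ⟨c, h⟩, h1, h2⟩ | ⟨c, p, q, h, h1, h2⟩)
    · rw [Sum.inl_injective (h1.symm.trans h2)] at h
      exact hir c t h
    · exact h (Prod.ext_iff.1 (Sum.inr_injective (h1.symm.trans h2))).2⟩

theorem host {p : Prop} {n n' : ℕ} (H : SimpleGraph (Fin n)) (hH : TC p H)
    (H' : SimpleGraph (Fin n')) (hconn : H'.Connected)
    (hyes : ∃ f : Fin n → Fin n', Function.Injective f ∧ ∀ x y, H.Adj x y → H'.Adj (f x) (f y))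
    (hno : ¬ ∃ f : Fin n' → Fin n, Function.Injective f ∧ ∀ x y, H'.Adj x y → H.Adj (f x) (f y)) :
    ∃ (V : Type) (_ : Finite V) (F : SimpleGraph V), ArrowsT F H ∧ ¬ ArrowsT F H' := by
  classical
  obtain ⟨a⟩ := hH.ne
  obtain ⟨b, hab⟩ := hH.nbr a
  have : Nonempty (Bool × Fin n) := ⟨(true, a)⟩
  obtain ⟨G, M, hG, hM, δ, hδ, hc, hsp⟩ := good (n * n) {y : Fin n // H.Adj a y} (Bool × Fin n)
  have hsp' : Sparse (n * n) δ := fun S h1 h2 => hsp S h1 (by omega)
  -- the orientation
  obtain ⟨κ, hκ⟩ : ∃ κ : Fin n → Bool, p → ∀ x y, H.Adj x y → κ x ≠ κ y := by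
    by_cases hp : p
    · obtain ⟨κ, hκ⟩ := hH.bip hp
      exact ⟨κ, fun _ => hκ⟩
    · exact ⟨fun _ => true, fun h => absurd h hp⟩
  let A : Fin n → Fin n → Prop := fun x u => H.Adj x u ∧ (p → κ x = κ a)
  have hA1 : ∀ x u, A x u → H.Adj x u := fun x u h => h.1
  have hA2 : ∀ x u, H.Adj x u → A x u ∨ A u x := by
    intro x u hxu
    by_cases hp : p
    · have h1 := hκ hp x u hxu
      by_cases h2 : κ x = κ a
      · exact Or.inl ⟨hxu, fun _ => h2⟩
      · refine Or.inr ⟨hxu.symm, fun _ => ?_⟩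
        revert h1 h2
        cases κ x <;> cases κ u <;> cases κ a <;> decide
    · exact Or.inl ⟨hxu, fun h => absurd h hp⟩
  obtain ⟨cl, hcl⟩ : ∃ cl : GD n G M ⊕ Fin n → Bool, p →
      (∀ s t, EB H A a b G M s t → cl s ≠ cl t) ∧ (∀ s t, ER H A a b a δ s t → cl s ≠ cl t) ∧
      ∀ q, cl (Sum.inr q) = κ q := by
    by_cases hp : p
    · obtain ⟨cl, h⟩ := pattern_bip (w := a) (δ := δ) (G := G) (M := M) κ (hκ hp) hab
        (A := A) (fun x u h => ⟨h.1, h.2 hp⟩)
      exact ⟨cl, fun _ => h⟩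
    · exact ⟨fun _ => true, fun h => absurd h hp⟩
  have hsy : ∀ c s t, EG H A a b a δ c s t → EG H A a b a δ c t s := by
    intro c s t h
    unfold EG at h ⊢
    split_ifs at h ⊢ with h1
    · exact EB_symm h
    · exact ER_symm h
  have hir : ∀ c s, ¬ EG H A a b a δ c s s := by
    intro c s h
    unfold EG at h
    split_ifs at h with h1
    · exact EB_irrefl s h
    · exact ER_irrefl hab.ne hδ s h
  have hEcl : p → ∀ c s t, EG H A a b a δ c s t → cl s ≠ cl t := by
    intro hp c s t h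
    unfold EG at h
    split_ifs at h with h1
    · exact (hcl hp).1 s t h
    · exact (hcl hp).2.1 s t h
  let B := Base H A a b δ hsy hir
  have B1 : ∀ s t, B.Adj (Sum.inl s) (Sum.inl t) ↔ ∃ c, EG H A a b a δ c s t := by
    intro s t
    constructor
    · rintro (⟨s', t', h, h1, h2⟩ | ⟨c, p, q, h, h1, h2⟩)
      · rw [Sum.inl_injective h1, Sum.inl_injective h2]
        exact h
      · simp at h1
    · intro h
      exact Or.inl ⟨s, t, h, rfl, rfl⟩
  have B2 : ∀ c p y, B.Adj (Sum.inr (c, p)) y → ∃ q, y = Sum.inr (c, q) := by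
    rintro c p y (⟨s', t', h, h1, h2⟩ | ⟨c', p', q, h, h1, h2⟩)
    · simp at h1
    · have := (Prod.ext_iff.1 (Sum.inr_injective h1)).1
      simp only at this
      exact ⟨q, by rw [h2, this]⟩
  have B3 : ∀ s y, B.Adj (Sum.inl s) y → ∃ t, y = Sum.inl t := by
    rintro s y (⟨s', t', h, h1, h2⟩ | ⟨c', p', q, h, h1, h2⟩)
    · exact ⟨t', h2⟩
    · simp at h1
  have B4 : ∀ s p, ¬ B.Adj (Sum.inl s) (Sum.inr p) := by
    intro s p h
    obtain ⟨t, ht⟩ := B3 _ _ h
    simp at ht
  have B5 : p → ∀ x y, B.Adj x y →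
      Sum.elim cl (fun r : Fin 2 × Bool => !r.2) x ≠ Sum.elim cl (fun r => !r.2) y := by
    rintro hp x y (⟨s, t, ⟨c, h⟩, rfl, rfl⟩ | ⟨c, u, v, h, rfl, rfl⟩)
    · exact hEcl hp c s t h
    · show (!u) ≠ (!v)
      revert h
      cases u <;> cases v <;> decide
  let J := {q : Fin 2 × GD n G M × GD n G M //
    EG H A a b a δ q.1 (Sum.inl q.2.1) (Sum.inl q.2.2) ∧ (p → cl (Sum.inl q.2.1) = true)}
  obtain ⟨V, hV, F, ι, hι, hind, hA, hB, hD⟩ := attach H hH (J := J) B
    (fun j => Sum.inl (Sum.inl j.1.2.1)) (fun j => Sum.inl (Sum.inl j.1.2.2))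
    (fun j => Sum.inr (j.1.1, false)) (fun j => Sum.inr (j.1.1, true))
    (fun j => (B1 _ _).2 ⟨j.1.1, j.2.1⟩)
    (fun j => Or.inr ⟨j.1.1, false, true, by decide, rfl, rfl⟩)
    (fun j => ⟨by simp, by simp, by simp, by simp⟩)
    (fun j => ⟨B4 _ _, B4 _ _, B4 _ _, B4 _ _⟩)
    (fun hp => ⟨Sum.elim cl (fun r => !r.2), B5 hp, fun j => j.2.2 hp⟩)
  refine ⟨V, hV, F, ?_, ?_⟩
  · intro C hC
    by_contra hcon
    have hgood : Good H F C := fun β f hf hall => hcon ⟨β, f, hf, hall⟩
    have hφ := hA C hC hgood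
    obtain ⟨β, f, hf1, hf2⟩ := mono_copy hA2 hab ⟨b, hab⟩ hδ hc
      (fun s t => C (ι (Sum.inl s)) (ι (Sum.inl t))) (fun s t => hC _ _)
      (fun c => C (ι (Sum.inr (c, false))) (ι (Sum.inr (c, true))))
      (fun c d d' h => by
        by_cases hd : p → cl (Sum.inl d) = true
        · exact hφ ⟨(c, d, d'), h, hd⟩
        · have hp : p := by
            by_contra hp
            exact hd (fun h => absurd h hp)
          have h1 : ¬ cl (Sum.inl d) = true := fun h => hd (fun _ => h)
          have h2 := hEcl hp c _ _ h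
          have h3 : cl (Sum.inl d') = true := by
            revert h1 h2
            cases cl (Sum.inl d) <;> cases cl (Sum.inl d') <;> decide
          have h4 := hφ ⟨(c, d', d), hsy c _ _ h, fun _ => h3⟩
          rw [hC]
          exact h4)
    exact hgood β (fun i => ι (Sum.inl (f i))) (hι.comp (Sum.inl_injective.comp hf1))
      (fun i j hij => ⟨(hind _ _).2 ((B1 _ _).2 (hf2 i j hij).1), (hf2 i j hij).2⟩)
  · intro h
    let c₀ : ((GD n G M ⊕ Fin n) ⊕ (Fin 2 × Bool)) → ((GD n G M ⊕ Fin n) ⊕ (Fin 2 × Bool)) →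
        Bool := fun x y => match x, y with
      | Sum.inl s, Sum.inl t => decide (ER H A a b a δ s t)
      | Sum.inr p, Sum.inr q => decide (p.1 = 1 ∧ q.1 = 1)
      | _, _ => false
    have hc1 : ∀ s t, c₀ (Sum.inl s) (Sum.inl t) = decide (ER H A a b a δ s t) := fun _ _ => rfl
    have hc2 : ∀ p q, c₀ (Sum.inr p) (Sum.inr q) = decide (p.1 = 1 ∧ q.1 = 1) := fun _ _ => rfl
    have hc₀ : ∀ x y, c₀ x y = c₀ y x := by
      rintro (s | p) (t | q)
      · rw [hc1, hc1]
        by_cases h1 : ER H A a b a δ s t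
        · rw [decide_eq_true h1, decide_eq_true (ER_symm h1)]
        · rw [decide_eq_false h1, decide_eq_false (fun h2 => h1 (ER_symm h2))]
      · rfl
      · rfl
      · rw [hc2, hc2]
        exact decide_eq_decide.2 and_comm
    obtain ⟨C, hC1, hC2, hC3⟩ := hB c₀ hc₀ (by
      rintro ⟨⟨c, d, d'⟩, hd, _⟩
      rw [hc1, hc2]
      simp only at hd ⊢
      unfold EG at hd
      split_ifs at hd with h0
      · rw [decide_eq_false (fun h' => E_disj hd h'), decide_eq_false]
        rw [h0]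
        decide
      · rw [decide_eq_true hd, decide_eq_true]
        exact ⟨Fin.eq_one_of_ne_zero c h0, Fin.eq_one_of_ne_zero c h0⟩)
    obtain ⟨β, f', hf', hmono⟩ := h C hC1
    obtain ⟨j, hj1, hj2⟩ := hyes
    have hbase := hC3 β (fun x => f' (j x)) (hf'.comp hj1)
      (fun x y hxy => hmono _ _ (hj2 x y hxy))
    choose g hg using hbase
    have hgi : Function.Injective g := by
      intro x y hxy
      exact hj1 (hf' (by rw [hg, hg, hxy]))
    have hgadj : ∀ x y, H.Adj x y → B.Adj (g x) (g y) ∧ c₀ (g x) (g y) = β := by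
      intro x y hxy
      obtain ⟨h1, h2⟩ := hmono _ _ (hj2 x y hxy)
      rw [hg x, hg y] at h1 h2
      exact ⟨(hind _ _).1 h1, by rw [← hC2, h2]⟩
    -- the copy lies in the pattern
    have hpat : ∀ x, ∃ s, g x = Sum.inl s := by
      intro x
      rcases hx : g x with s | ⟨c, q⟩
      · exact ⟨s, rfl⟩
      · exfalso
        have hall := hH.conn (fun y => ∃ q, g y = Sum.inr (c, q)) ⟨x, q, hx⟩ (by
          rintro y z hyz ⟨q, hq⟩
          have h1 := (hgadj y z hyz).1
          rw [hq] at h1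
          exact B2 _ _ _ h1)
        choose k hk using hall
        obtain ⟨y, hyx, _⟩ := hH.third x x
        obtain ⟨z, hzx, hzy⟩ := hH.third x y
        have h1 : k y ≠ k x := fun h => hyx (hgi (by rw [hk, hk, h]))
        have h2 : k z ≠ k x := fun h => hzx (hgi (by rw [hk, hk, h]))
        have h3 : k z ≠ k y := fun h => hzy (hgi (by rw [hk, hk, h]))
        revert h1 h2 h3
        cases k x <;> cases k y <;> cases k z <;> simp
    choose g' hg' using hpat
    have hg'i : Function.Injective g' := by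
      intro x y hxy
      exact hgi (by rw [hg', hg', hxy])
    have hg'adj : ∀ x y, H.Adj x y → (∃ c, EG H A a b a δ c (g' x) (g' y)) ∧
        decide (ER H A a b a δ (g' x) (g' y)) = β := by
      intro x y hxy
      obtain ⟨h1, h2⟩ := hgadj x y hxy
      rw [hg' x, hg' y] at h1 h2
      exact ⟨(B1 _ _).1 h1, h2⟩
    rcases Bool.eq_false_or_eq_true β with hβ | hβ
    · -- red
      subst hβ
      have hpass := red_pass (H := H) (A := A) (a := a) (b := b) (w := a) (δ := δ) hH hsp' g' hg'i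
        (fun x y hxy => of_decide_eq_true (hg'adj x y hxy).2)
      have hstep : ∀ q y, F.Adj (ι (Sum.inl (Sum.inr q))) y →
          C (ι (Sum.inl (Sum.inr q))) y = true →
          ∃ q', y = ι (Sum.inl (Sum.inr q')) ∧ H.Adj q q' := by
        intro q y h1 h2
        rcases hD _ _ h1 with ⟨v, hv⟩ | ⟨j, hj⟩
        · rw [hv] at h1 h2
          have h3 := (hind _ _).1 h1
          obtain ⟨t, ht⟩ := B3 _ _ h3
          rw [ht, hC2, hc1] at h2
          have h4 : ER H A a b a δ (Sum.inr q) t := of_decide_eq_true h2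
          rcases h4 with ⟨_, _, _, hs, _⟩ | ⟨q1, q2, hq, hs, ht'⟩ |
            ⟨_, _, _, _, _, _, _, _, _, _, _, _, hs, _⟩
          · simp at hs
          · refine ⟨q2, by rw [hv, ht, ht'], ?_⟩
            rw [Sum.inr_injective hs]
            exact hq
          · simp at hs
        · exfalso
          rcases hj with hj | hj | hj | hj
          · simp at hj
          · simp at hj
          · simp at hj
          · simp at hj
      have hall : ∀ x, ∃ q, f' x = ι (Sum.inl (Sum.inr q)) := by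
        intro x
        obtain ⟨p⟩ := hconn.preconnected (j a) x
        have main : ∀ (u v : Fin n') (p : H'.Walk u v), (∃ q, f' u = ι (Sum.inl (Sum.inr q))) →
            ∃ q, f' v = ι (Sum.inl (Sum.inr q)) := by
          intro u v p
          induction p with
          | nil => exact fun h => h
          | cons hadj p ih =>
            rintro ⟨q, hq⟩
            apply ih
            obtain ⟨h1, h2⟩ := hmono _ _ hadj
            rw [hq] at h1 h2
            obtain ⟨q', h3, _⟩ := hstep q _ h1 h2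
            exact ⟨q', h3⟩
        refine main _ _ p ?_
        obtain ⟨q, hq⟩ := hpass a
        exact ⟨q, by rw [hg, hg', hq]⟩
      choose k hk using hall
      apply hno
      refine ⟨k, ?_, ?_⟩
      · intro x y hxy
        exact hf' (by rw [hk, hk, hxy])
      · intro x y hxy
        obtain ⟨h1, h2⟩ := hmono _ _ hxy
        rw [hk x] at h1 h2
        obtain ⟨q', h3, h4⟩ := hstep _ _ h1 h2
        rw [hk y] at h3
        rw [Sum.inr_injective (Sum.inl_injective (hι h3))]
        exact h4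
    · -- blue
      subst hβ
      refine no_blue (G := G) (M := M) hH hA1 hab (fun hp => ⟨cl, (hcl hp).1, fun x u hxu => ?_⟩)
        g' hg'i (fun x y hxy => ?_)
      · rw [(hcl hp).2.2, (hcl hp).2.2]
        exact hκ hp x u hxu
      · obtain ⟨⟨c, hc'⟩, h2⟩ := hg'adj x y hxy
        have h3 : ¬ ER H A a b a δ (g' x) (g' y) := of_decide_eq_false h2
        unfold EG at hc'
        split_ifs at hc' with h0
        · exact hc'
        · exact absurd hc' h3

/-- A graph with the connectivity condition is not Ramsey-equivalent to a connected graph that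
properly contains it. -/
theorem main3 {p : Prop} {n n' : ℕ} (H : SimpleGraph (Fin n)) (hH : TC p H)
    (H' : SimpleGraph (Fin n')) (hconn : H'.Connected)
    (hyes : ∃ f : Fin n → Fin n', Function.Injective f ∧ ∀ x y, H.Adj x y → H'.Adj (f x) (f y))
    (hiso : IsEmpty (H ≃g H')) :
    ∃ (m : ℕ) (F : SimpleGraph (Fin m)), ArrowsT F H ∧ ¬ ArrowsT F H' := by
  by_cases h2 : ∃ f : Fin n' → Fin n, Function.Injective f ∧
      ∀ x y, H'.Adj x y → H.Adj (f x) (f y)
  · obtain ⟨e⟩ := iso_of_le H H' hyes h2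
    exact (hiso.false e).elim
  · obtain ⟨V, hV, F, hF1, hF2⟩ := host H hH H' hconn hyes h2
    obtain ⟨m, ⟨ε⟩⟩ := Finite.exists_equiv_fin V
    refine ⟨m, F.comap ε.symm, ?_⟩
    rw [arrowsT_equiv, arrowsT_equiv]
    exact ⟨hF1, hF2⟩

end Pool.Agent.Lib.MP_3240be_co.H82
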